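import Pool.Agent.Y465.SZ.Stm2

/-!
Project Y465-SZ, job CTY: type C without colouring
-/

set_option linter.unusedSectionVars false
set_option autoImplicit false

namespace Pool.Agent.Y71.SZ.Cty

open Pool.Agent.Y465.SZ

variable {E : Type} [Fintype E] [DecidableEq E] {mate : E × Fin 4 → E × Fin 4}

theorem ends {K : Finset E} {t : E → Bool} {e : E}
    (h : Same mate K (pt (e, t e)) (pt (e, !t e))) : Same mate K (e, 0) (e, 2) := by
  cases ht : t e
  · rw [ht] at h
    exact h
  · rw [ht] at h
    exact h.symm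

theorem ends' {K : Finset E} {e : E} (b : Bool)
    (h : Same mate K (pt (e, b)) (pt (e, !b))) : Same mate K (e, 0) (e, 2) := by
  cases b
  · exact h
  · exact h.symm

theorem ends_iff {K : Finset E} {e : E} (b : Bool) :
    Same mate K (pt (e, b)) (pt (e, !b)) ↔ Same mate K (e, 0) (e, 2) := by
  cases b
  · exact Iff.rfl
  · exact ⟨fun h => h.symm, fun h => h.symm⟩

theorem bool3 {a b c : Bool} (h1 : c ≠ a) (h2 : c ≠ b) : a = b := by
  revert a b c
  decide

theorem bool2 {a b : Bool} (h1 : a ≠ b) : (a = true ∧ b = false) ∨ (a = false ∧ b = true) := by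
  revert a b
  decide

/-- CTY -/
theorem cty : S_CTY := by
  intro E _ _ mate col hD hO s t K S hS
  have hdec : ∀ e ∈ S, ∀ f ∈ S, decide (e ∈ K) = decide (f ∈ K) := by
    intro e he f hf
    rcases hS with h | h
    · rw [decide_eq_false (h e he), decide_eq_false (h f hf)]
    · rw [decide_eq_true (h e he), decide_eq_true (h f hf)]
  constructor
  · rintro ⟨side, ⟨h1, ⟨e1, he1, hs1⟩, ⟨e2, he2, hs2⟩, h4⟩, h5⟩
    have hK : ∀ e ∈ S, Same mate K (e, 0) (e, 2) := fun e he =>
      (ends_iff (t e)).1 (h1 e he e he).2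
    have hne : ∀ e ∈ S, ∀ f ∈ S, side e ≠ side f → col (e, 0) ≠ col (f, 0) := by
      intro e he f hf hef
      have hef' : e ≠ f := by
        rintro rfl
        exact hef rfl
      have h6 : ¬ Same mate (tog K e) (e, 0) (e, 2) := fun h => (hO K e).1 h (hK e he)
      have h7 : ¬ Same mate (tog K e) (f, 0) (f, 2) := by
        intro h8
        have h9 := (ends_iff (t f)).2 h8
        obtain ⟨h10, h11⟩ := h4 e he f hf hef
        have h12 := (Same.symm h10).trans (h9.trans h11)
        apply h6
        cases s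
        · exact (ends_iff (t e)).1 (Same.symm h12)
        · exact (ends_iff (t e)).1 h12
      have h8 := hD.pl K e f hef' (hK e he) (hK f hf) h7
      rw [hdec e he f hf] at h8
      intro h9
      exact h8 (by rw [h9])
    have heq : ∀ e ∈ S, ∀ f ∈ S, side e = side f → col (e, 0) = col (f, 0) := by
      intro e he f hf hef
      obtain ⟨g, hg, hge⟩ : ∃ g ∈ S, side g ≠ side e := by
        cases h : side e
        · exact ⟨e1, he1, by rw [hs1]; exact Bool.noConfusion⟩
        · exact ⟨e2, he2, by rw [hs2]; exact Bool.noConfusion⟩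
      exact bool3 (hne g hg e he hge) (hne g hg f hf (by rw [← hef]; exact hge))
    have h12 := hne e1 he1 e2 he2 (by rw [hs1, hs2]; exact Bool.noConfusion)
    refine ⟨h1, ?_, ?_, ?_⟩
    · rcases bool2 h12 with ⟨h, -⟩ | ⟨-, h⟩
      · exact ⟨e1, he1, h⟩
      · exact ⟨e2, he2, h⟩
    · rcases bool2 h12 with ⟨-, h⟩ | ⟨h, -⟩
      · exact ⟨e2, he2, h⟩
      · exact ⟨e1, he1, h⟩
    · intro e he f hf hef
      exact h4 e he f hf fun h => hef (heq e he f hf h)
  · intro h
    refine ⟨fun e => col (e, 0), h, ?_⟩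
    obtain ⟨h1, -, -, -⟩ := h
    have hK : ∀ e ∈ S, Same mate K (e, 0) (e, 2) := fun e he =>
      (ends_iff (t e)).1 (h1 e he e he).2
    intro e he f hf hef hc
    show Same mate (tog K e) (f, 2) (f, 0)
    refine Same.symm ?_
    by_contra h7
    have h8 := hD.pl K e f hef (hK e he) (hK f hf) h7
    rw [hdec e he f hf] at h8
    have hc' : col (e, 0) = col (f, 0) := hc
    exact h8 (by rw [hc'])

end Pool.Agent.Y71.SZ.Cty
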