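import Pool.Agent.Y71.SZ.DcjB

/-!
Project Y465-SZ, job DCJ: decoration change for the label preserving part
-/

set_option linter.unusedSectionVars false
set_option autoImplicit false

namespace Pool.Agent.Y71.SZ

open Pool.Agent.Y465.SZ

variable {E : Type} [Fintype E] [DecidableEq E] {mate : E × Fin 4 → E × Fin 4}
  {col : E × Fin 4 → Bool} {s : Bool} {t : E → Bool} {K J : Finset E} {f : E × Fin 4 → Bool}

theorem w1 (hW : WTF mate) {M : Finset E} {e : E} (he : e ∉ M) (hf : Inv mate M f)
    (h0 : f (e, 0) = false) (h2 : f (e, 2) = false) :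
    wt mate (insert e M) f = wt mate M f ↔ Same mate M (e, 0) (e, 2) := by
  constructor
  · intro h
    by_contra hn
    have := hW.m1 M e f he hf h0 h2 hn
    omega
  · exact hW.s1 M e f he hf h0 h2

theorem wx (hW : WTF mate) {M : Finset E} {e : E} (he : e ∉ M) (hf : Inv mate M f)
    (h0 : f (e, 0) = true) (h2 : f (e, 2) = true) :
    wt mate (insert e M) f = wt mate M f ↔ ¬ Same mate M (e, 0) (e, 2) := by
  constructor
  · intro h hn
    have := hW.sx M e f he hf h0 h2 hn
    omega
  · exact hW.mx M e f he hf h0 h2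

theorem pt_val {v : E × Fin 4 → Bool} {g : E} (h0 : v (g, 0) = true) (h2 : v (g, 2) = true)
    (b : Bool) : v (pt (g, b)) = true := by
  cases b
  · exact h0
  · exact h2

theorem tt_low (K S : Finset E) :
    TT s (fun e => col (e, 0)) (fun M p q => Same mate (K ∪ M) (pt p) (pt q)) ∅ S t ↔
      tyL mate col s t K S := by
  unfold TT tyL
  simp only [Finset.union_empty, Finset.union_insert]

theorem tt_low1 (K S : Finset E) (e : E) :
    TT s (fun e => col (e, 0)) (fun M p q => Same mate (K ∪ M) (pt p) (pt q)) {e} S t ↔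
      tyL mate col s t (insert e K) S := by
  unfold TT tyL
  have h : K ∪ {e} = insert e K := by
    rw [← insert_empty_eq, Finset.union_insert, Finset.union_empty]
  simp only [Finset.union_insert, h]

theorem tt_high (K S : Finset E) :
    TT s (fun e => col (e, 0)) (fun M p q => Same mate (K \ M) (pt p) (pt q)) ∅ S t ↔
      tyH mate col s t K S := by
  unfold TT tyH
  simp only [Finset.sdiff_empty, sdiff_insert']

theorem tt_high1 (K S : Finset E) (e : E) :
    TT s (fun e => col (e, 0)) (fun M p q => Same mate (K \ M) (pt p) (pt q)) {e} S t ↔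
      tyH mate col s t (K.erase e) S := by
  unfold TT tyH
  have h : K \ {e} = K.erase e := Finset.sdiff_singleton_eq_erase _ _
  simp only [sdiff_insert', h]

theorem gamma (hOSG : S_OSG) (hG : S_GAM) (hD : Dia mate col) (hO : Ori mate) (hJm : JOI mate)
    (hW : WTF mate) (hK : Inv mate K f) (hJ : Inv mate J f) (hKJ : K ⊆ J)
    (hw : wt mate J f = wt mate K f + 2) (s : Bool) (t : E → Bool) {e : E} (he : e ∈ J \ K)
    (hS : ((J \ K).erase e).Nonempty) (hf : allv false (J \ K) f) :
    Xor (tyL mate col s (ft t e) K (J \ K)) (tyL mate col s t K (J \ K)) ↔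
      Xor (wt mate (J.erase e) f = wt mate J f ∧ tyL mate col s t K ((J \ K).erase e))
        (wt mate (insert e K) f = wt mate K f ∧
          tyL mate col s t (insert e K) ((J \ K).erase e)) := by
  have hins : insert e ((J \ K).erase e) = J \ K := Finset.insert_erase he
  obtain ⟨heJ, heK⟩ := Finset.mem_sdiff.1 he
  have hKM : ∀ M, M ⊆ J \ K → Inv mate (K ∪ M) f := fun M hM =>
    inv_between hK hJ Finset.subset_union_left
      (Finset.union_subset hKJ (hM.trans Finset.sdiff_subset))
  have h := gen hOSG hG hD hO hJm s t e ((J \ K).erase e) (Finset.notMem_erase _ _) hS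
    (fun M => K ∪ M) (fun M => wt mate (K ∪ M) f) false
    (fun M _ g hg hgM => by
      rw [hins] at hg
      show K ∪ insert g M = tog (K ∪ M) g
      rw [tog_not_mem, Finset.union_insert]
      rw [Finset.mem_union]
      rintro (h | h)
      · exact (Finset.mem_sdiff.1 hg).2 h
      · exact hgM h)
    (fun M hM g hg hgM => by
      rw [hins] at hg hM
      have h1 : g ∉ K ∪ M := by
        rw [Finset.mem_union]
        rintro (h | h)
        · exact (Finset.mem_sdiff.1 hg).2 h
        · exact hgM h
      obtain ⟨h2, h3⟩ := hf g hg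
      show (_ → wt mate (K ∪ insert g M) f = wt mate (K ∪ M) f + 2) ∧
        (_ → wt mate (K ∪ insert g M) f = wt mate (K ∪ M) f)
      rw [Finset.union_insert]
      exact ⟨hW.m1 _ g f h1 (hKM M hM) h2 h3, hW.s1 _ g f h1 (hKM M hM) h2 h3⟩)
    (fun g hg => by
      rw [hins] at hg
      refine decide_eq_false ?_
      show ¬ g ∈ K ∪ ∅
      rw [Finset.union_empty]
      exact (Finset.mem_sdiff.1 hg).2)
    (by
      show wt mate (K ∪ insert e ((J \ K).erase e)) f = wt mate (K ∪ ∅) f + 2
      rw [hins, Finset.union_empty, Finset.union_sdiff_of_subset hKJ, hw])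
  rw [hins, tt_low, tt_low, tt_low, tt_low1] at h
  rw [h]
  have hU : K ∪ (J \ K).erase e = J.erase e := by
    ext x
    simp only [Finset.mem_union, Finset.mem_erase, Finset.mem_sdiff]
    constructor
    · rintro (h | ⟨h1, h2, -⟩)
      · exact ⟨fun h' => heK (h' ▸ h), hKJ h⟩
      · exact ⟨h1, h2⟩
    · rintro ⟨h1, h2⟩
      by_cases h3 : x ∈ K
      · exact Or.inl h3
      · exact Or.inr ⟨h1, h2, h3⟩
  obtain ⟨f0, f2⟩ := hf e he
  have hJe : Inv mate (J.erase e) f := by
    rw [← hU]
    exact hKM _ (Finset.erase_subset _ _)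
  have e1 : wt mate (J.erase e) f = wt mate J f ↔ Same mate (J.erase e) (e, 2) (e, 0) := by
    have h1 := w1 hW (Finset.notMem_erase e J) hJe f0 f2
    rw [Finset.insert_erase heJ] at h1
    rw [eq_comm, h1]
    exact ⟨fun h => h.symm, fun h => h.symm⟩
  have e2 : wt mate (insert e K) f = wt mate K f ↔ Same mate (K ∪ ∅) (e, 2) (e, 0) := by
    rw [w1 hW heK hK f0 f2, Finset.union_empty]
    exact ⟨fun h => h.symm, fun h => h.symm⟩
  rw [e1, e2, hU]

theorem delta (hOSG : S_OSG) (hG : S_GAM) (hD : Dia mate col) (hO : Ori mate) (hJm : JOI mate)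
    (hW : WTF mate) (hK : Inv mate K f) (hJ : Inv mate J f) (hKJ : K ⊆ J)
    (hw : wt mate J f = wt mate K f + 2) (s : Bool) (t : E → Bool) {e : E} (he : e ∈ J \ K)
    (hS : ((J \ K).erase e).Nonempty) (hf : allv true (J \ K) f) :
    Xor (tyH mate col s (ft t e) J (J \ K)) (tyH mate col s t J (J \ K)) ↔
      Xor (wt mate (J.erase e) f = wt mate J f ∧
          tyH mate col s t (J.erase e) ((J \ K).erase e))
        (wt mate (insert e K) f = wt mate K f ∧ tyH mate col s t J ((J \ K).erase e)) := by
  have hins : insert e ((J \ K).erase e) = J \ K := Finset.insert_erase he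
  obtain ⟨heJ, heK⟩ := Finset.mem_sdiff.1 he
  have hKM : ∀ M, M ⊆ J \ K → Inv mate (J \ M) f := fun M hM =>
    inv_between hK hJ (fun x hx => Finset.mem_sdiff.2
      ⟨hKJ hx, fun h => (Finset.mem_sdiff.1 (hM h)).2 hx⟩) Finset.sdiff_subset
  have h := gen hOSG hG hD hO hJm s t e ((J \ K).erase e) (Finset.notMem_erase _ _) hS
    (fun M => J \ M) (fun M => - wt mate (J \ M) f) true
    (fun M _ g hg hgM => by
      rw [hins] at hg
      show J \ insert g M = tog (J \ M) g
      rw [tog_mem, sdiff_insert']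
      exact Finset.mem_sdiff.2 ⟨(Finset.mem_sdiff.1 hg).1, hgM⟩)
    (fun M hM g hg hgM => by
      rw [hins] at hg hM
      have h1 : g ∈ J \ M := Finset.mem_sdiff.2 ⟨(Finset.mem_sdiff.1 hg).1, hgM⟩
      have h4 : g ∉ (J \ M).erase g := Finset.notMem_erase _ _
      have h5 : Inv mate ((J \ M).erase g) f := by
        rw [← sdiff_insert']
        exact hKM _ (Finset.insert_subset hg hM)
      obtain ⟨h2, h3⟩ := hf g hg
      have h6 := hO ((J \ M).erase g) g
      rw [tog_not_mem h4, Finset.insert_erase h1] at h6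
      have h7 := hW.sx _ g f h4 h5 h2 h3
      have h8 := hW.mx _ g f h4 h5 h2 h3
      rw [Finset.insert_erase h1] at h7 h8
      show (_ → - wt mate (J \ insert g M) f = - wt mate (J \ M) f + 2) ∧
        (_ → - wt mate (J \ insert g M) f = - wt mate (J \ M) f)
      rw [sdiff_insert']
      constructor
      · intro h9
        have h10 := h7 (by
          by_contra h11
          exact h9 (h6.2 h11))
        omega
      · intro h9
        have h10 := h8 (h6.1 h9)
        omega)
    (fun g hg => by
      rw [hins] at hg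
      refine decide_eq_true ?_
      show g ∈ J \ ∅
      rw [Finset.sdiff_empty]
      exact (Finset.mem_sdiff.1 hg).1)
    (by
      show - wt mate (J \ insert e ((J \ K).erase e)) f = - wt mate (J \ ∅) f + 2
      rw [hins, Finset.sdiff_empty, Finset.sdiff_sdiff_eq_self hKJ]
      omega)
  rw [hins, tt_high, tt_high, tt_high, tt_high1] at h
  rw [h]
  have hU : J \ (J \ K).erase e = insert e K := by
    ext x
    simp only [Finset.mem_sdiff, Finset.mem_erase, Finset.mem_insert]
    constructor
    · rintro ⟨h1, h2⟩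
      by_contra h3
      push Not at h3
      exact h2 ⟨h3.1, h1, h3.2⟩
    · rintro (h | h)
      · subst h
        exact ⟨heJ, fun h => h.1 rfl⟩
      · exact ⟨hKJ h, fun h' => h'.2.2 h⟩
  obtain ⟨f0, f2⟩ := hf e he
  have hJe : Inv mate (J.erase e) f := inv_between hK hJ (fun x hx => Finset.mem_erase.2
    ⟨fun h => heK (h ▸ hx), hKJ hx⟩) (Finset.erase_subset _ _)
  have e1 : wt mate (J.erase e) f = wt mate J f ↔ Same mate (J \ ∅) (e, 2) (e, 0) := by
    have h1 := wx hW (Finset.notMem_erase e J) hJe f0 f2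
    have h2 := hO (J.erase e) e
    rw [tog_not_mem (Finset.notMem_erase e J), Finset.insert_erase heJ] at h2
    rw [Finset.insert_erase heJ] at h1
    rw [eq_comm, h1, ← h2, Finset.sdiff_empty]
    exact ⟨fun h => h.symm, fun h => h.symm⟩
  have e2 : wt mate (insert e K) f = wt mate K f ↔ Same mate (insert e K) (e, 2) (e, 0) := by
    have h2 := hO K e
    rw [tog_not_mem heK] at h2
    rw [wx hW heK hK f0 f2, ← h2]
    exact ⟨fun h => h.symm, fun h => h.symm⟩
  rw [e1, e2, hU, xor_comm]

theorem beta1 (hW : WTF mate) (hK : Inv mate K f) (hJ : Inv mate J f) (hKJ : K ⊆ J)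
    {e : E} (he : e ∈ J \ K) (hf : allv false ((J \ K).erase e) f) (h0 : f (e, 0) = true)
    (h2 : f (e, 2) = true) :
    (wt mate (J.erase e) f = wt mate J f ∧ tyL mate col s t K ((J \ K).erase e)) ↔
      (wt mate (insert e K) f = wt mate K f ∧
        tyL mate col s t (insert e K) ((J \ K).erase e)) := by
  obtain ⟨heJ, heK⟩ := Finset.mem_sdiff.1 he
  have hKe : K ⊆ J.erase e := fun x hx => Finset.mem_erase.2 ⟨fun h => heK (h ▸ hx), hKJ hx⟩
  have hJe : Inv mate (J.erase e) f := inv_between hK hJ hKe (Finset.erase_subset _ _)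
  have hsame : Same mate K (e, 0) (e, 2) ↔ Same mate (J.erase e) (e, 0) (e, 2) := by
    refine same_loc_iff hK hJe (fun g hg => ?_) h0
    have hg1 : g ∉ K := fun h => (hg.1 h) (hKe h)
    have hg2 : g ∈ J.erase e := by
      by_contra h
      exact hg1 (hg.2 h)
    exact (hf g (by
      rw [Finset.mem_erase] at hg2 ⊢
      exact ⟨hg2.1, Finset.mem_sdiff.2 ⟨hg2.2, hg1⟩⟩)).1
  have hwt : wt mate (J.erase e) f = wt mate J f ↔ wt mate (insert e K) f = wt mate K f := by
    have h1 := wx hW (Finset.notMem_erase e J) hJe h0 h2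
    rw [Finset.insert_erase heJ] at h1
    rw [eq_comm, h1, wx hW heK hK h0 h2, hsame]
  have hmem : ∀ {g : E}, g ∈ (J \ K).erase e → g ≠ e ∧ g ∈ J ∧ g ∉ K := fun {g} hg => by
    rw [Finset.mem_erase, Finset.mem_sdiff] at hg
    exact hg
  have hloc : ∀ M : Finset E, K ⊆ M → M ⊆ J → e ∉ M → ∀ g ∈ (J \ K).erase e, ∀ b h,
      (Same mate M (pt (g, b)) h ↔ Same mate (insert e M) (pt (g, b)) h) := by
    intro M h1 h3 h4 g hg b h
    have hM : Inv mate M f := inv_between hK hJ h1 h3
    have hM' : Inv mate (insert e M) f :=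
      inv_between hK hJ (h1.trans (Finset.subset_insert _ _)) (Finset.insert_subset heJ h3)
    refine same_loc_iff hM.not hM'.not (fun g' hg' => ?_)
      (pt_val (v := fun h => !f h) (by rw [(hf g hg).1]; rfl) (by rw [(hf g hg).2]; rfl) b)
    have h5 : g' = e := by
      by_contra h6
      rw [Finset.mem_insert] at hg'
      tauto
    rw [h5, h0]
    rfl
  refine and_congr hwt (or_congr (TA_congr (fun _ _ => rfl) fun g hg g' hg' b c =>
    hloc K subset_rfl hKJ heK g hg b _) (TC_congr (fun _ _ => rfl) (fun g hg g' hg' b c =>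
    hloc K subset_rfl hKJ heK g hg b _) fun g hg g' hg' b c => ?_))
  rw [Finset.insert_comm]
  obtain ⟨g1, g2, g3⟩ := hmem hg
  refine hloc (insert g K) (Finset.subset_insert _ _) (Finset.insert_subset g2 hKJ) ?_ g' hg' b _
  rw [Finset.mem_insert]
  rintro (h | h)
  · exact g1 h.symm
  · exact heK h

theorem beta2 (hW : WTF mate) (hK : Inv mate K f) (hJ : Inv mate J f) (hKJ : K ⊆ J)
    {e : E} (he : e ∈ J \ K) (hf : allv true ((J \ K).erase e) f) (h0 : f (e, 0) = false)
    (h2 : f (e, 2) = false) :
    (wt mate (J.erase e) f = wt mate J f ∧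
        tyH mate col s t (J.erase e) ((J \ K).erase e)) ↔
      (wt mate (insert e K) f = wt mate K f ∧ tyH mate col s t J ((J \ K).erase e)) := by
  obtain ⟨heJ, heK⟩ := Finset.mem_sdiff.1 he
  have hKe : K ⊆ J.erase e := fun x hx => Finset.mem_erase.2 ⟨fun h => heK (h ▸ hx), hKJ hx⟩
  have hJe : Inv mate (J.erase e) f := inv_between hK hJ hKe (Finset.erase_subset _ _)
  have hsame : Same mate K (e, 0) (e, 2) ↔ Same mate (J.erase e) (e, 0) (e, 2) := by
    refine same_loc_iff hK.not hJe.not (fun g hg => ?_) (by rw [h0]; rfl)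
    have hg1 : g ∉ K := fun h => (hg.1 h) (hKe h)
    have hg2 : g ∈ J.erase e := by
      by_contra h
      exact hg1 (hg.2 h)
    rw [(hf g (by
      rw [Finset.mem_erase] at hg2 ⊢
      exact ⟨hg2.1, Finset.mem_sdiff.2 ⟨hg2.2, hg1⟩⟩)).1]
    rfl
  have hwt : wt mate (J.erase e) f = wt mate J f ↔ wt mate (insert e K) f = wt mate K f := by
    have h1 := w1 hW (Finset.notMem_erase e J) hJe h0 h2
    rw [Finset.insert_erase heJ] at h1
    rw [eq_comm, h1, w1 hW heK hK h0 h2, hsame]
  have hmem : ∀ {g : E}, g ∈ (J \ K).erase e → g ≠ e ∧ g ∈ J ∧ g ∉ K := fun {g} hg => by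
    rw [Finset.mem_erase, Finset.mem_sdiff] at hg
    exact hg
  have hloc : ∀ M : Finset E, K ⊆ M → M ⊆ J → e ∈ M → ∀ g ∈ (J \ K).erase e, ∀ b h,
      (Same mate (M.erase e) (pt (g, b)) h ↔ Same mate M (pt (g, b)) h) := by
    intro M h1 h3 h4 g hg b h
    have hM : Inv mate M f := inv_between hK hJ h1 h3
    have hM' : Inv mate (M.erase e) f := inv_between hK hJ (fun x hx => Finset.mem_erase.2
      ⟨fun h => heK (h ▸ hx), h1 hx⟩) ((Finset.erase_subset _ _).trans h3)
    refine same_loc_iff hM' hM (fun g' hg' => ?_) (pt_val (hf g hg).1 (hf g hg).2 b)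
    have h5 : g' = e := by
      by_contra h6
      rw [Finset.mem_erase] at hg'
      tauto
    rw [h5, h0]
  refine and_congr hwt (or_congr (TA_congr (fun _ _ => rfl) fun g hg g' hg' b c =>
    hloc J hKJ subset_rfl heJ g hg b _) (TC_congr (fun _ _ => rfl) (fun g hg g' hg' b c =>
    hloc J hKJ subset_rfl heJ g hg b _) fun g hg g' hg' b c => ?_))
  rw [Finset.erase_right_comm]
  obtain ⟨g1, g2, g3⟩ := hmem hg
  refine hloc (J.erase g) (fun x hx => Finset.mem_erase.2 ⟨fun h => g3 (h ▸ hx), hKJ hx⟩)
    (Finset.erase_subset _ _) (Finset.mem_erase.2 ⟨fun h => g1 h.symm, heJ⟩) g' hg' b _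

theorem key (hOSG : S_OSG) (hG : S_GAM) (hD : Dia mate col) (hO : Ori mate) (hJm : JOI mate)
    (hW : WTF mate) (hK : Inv mate K f) (hJ : Inv mate J f) (hKJ : K ⊆ J)
    (hw : wt mate J f = wt mate K f + 2) (s : Bool) (t : E → Bool) (e : E) :
    Xor (rel col s (ft t e) (⟨K, f, hK⟩ : Cfg mate) ⟨J, f, hJ⟩)
      (rel col s t (⟨K, f, hK⟩ : Cfg mate) ⟨J, f, hJ⟩) ↔
    Xor (∃ z : Cfg mate, rel col s t (⟨K, f, hK⟩ : Cfg mate) z ∧ urel e z ⟨J, f, hJ⟩)
      (∃ z : Cfg mate, urel e (⟨K, f, hK⟩ : Cfg mate) z ∧ rel col s t z ⟨J, f, hJ⟩) := by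
  rw [rel_iff hK hJ hKJ hw, rel_iff hK hJ hKJ hw, exA_iff hK hJ hKJ hw, exB_iff hK hJ hKJ hw]
  by_cases heS : e ∈ J ∧ e ∉ K
  · have he : e ∈ J \ K := Finset.mem_sdiff.2 heS
    have hne : (J \ K).Nonempty := ⟨e, he⟩
    have hf2 : f (e, 2) = f (e, 0) := inv_const hJ hK heS.1 heS.2 2
    by_cases hS : ((J \ K).erase e).Nonempty
    · obtain ⟨g, hg⟩ := hS
      have hS : ((J \ K).erase e).Nonempty := ⟨g, hg⟩
      have hgS : g ∈ J \ K := Finset.mem_of_mem_erase hg
      have htf : ∀ {S : Finset E}, g ∈ S → allv true S f → ¬ allv false S f := by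
        intro S hgS h1 h2
        have h3 := (h1 g hgS).1
        rw [(h2 g hgS).1] at h3
        exact Bool.noConfusion h3
      have hsub : ∀ b, allv b (J \ K) f → allv b ((J \ K).erase e) f := fun b h g hg =>
        h g (Finset.mem_of_mem_erase hg)
      have hall : ∀ b, f (e, 0) = b → allv b ((J \ K).erase e) f → allv b (J \ K) f := by
        intro b h1 h2 g' hg'
        by_cases h3 : g' = e
        · subst h3
          exact ⟨h1, hf2.trans h1⟩
        · exact h2 g' (Finset.mem_erase.2 ⟨h3, hg'⟩)
      have hbad : ∀ b, f (e, 0) = (!b) → ¬ allv b (J \ K) f := by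
        intro b h1 h2
        have h3 := (h2 e he).1
        rw [h1] at h3
        cases b <;> exact Bool.noConfusion h3
      simp only [heS, hne, hS, true_and, not_false_eq_true, and_self]
      rcases Bool.eq_false_or_eq_true (f (e, 0)) with h0 | h0
      · -- label x at `e`
        by_cases hT : allv true ((J \ K).erase e) f
        · have h1 := hall true h0 hT
          have h2 := htf hgS h1
          have h3 := htf hg hT
          simp only [hT, h1, h2, h3, true_and, false_and, false_or]
          exact delta hOSG hG hD hO hJm hW hK hJ hKJ hw s t he hS h1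
        · have h1 : ¬ allv true (J \ K) f := fun h => hT (hsub _ h)
          have h2 : ¬ allv false (J \ K) f := hbad false h0
          by_cases hF : allv false ((J \ K).erase e) f
          · simp only [hT, h1, h2, hF, true_and, false_and, or_false]
            rw [beta1 hW hK hJ hKJ he hF h0 (hf2.trans h0)]
            simp [xor_self]
          · simp only [hT, h1, h2, hF, false_and, or_self, and_false]
      · -- label 1 at `e`
        by_cases hF : allv false ((J \ K).erase e) f
        · have h1 := hall false h0 hF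
          have h2 : ¬ allv true (J \ K) f := fun h => htf hgS h h1
          have h3 : ¬ allv true ((J \ K).erase e) f := fun h => htf hg h hF
          simp only [hF, h1, h2, h3, true_and, false_and, or_false]
          exact gamma hOSG hG hD hO hJm hW hK hJ hKJ hw s t he hS h1
        · have h1 : ¬ allv false (J \ K) f := fun h => hF (hsub _ h)
          have h2 : ¬ allv true (J \ K) f := hbad true h0
          by_cases hT : allv true ((J \ K).erase e) f
          · simp only [hT, h1, h2, hF, true_and, false_and, false_or, or_self]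
            rw [beta2 hW hK hJ hKJ he hT h0 (hf2.trans h0)]
            simp [xor_self]
          · simp only [hT, h1, h2, hF, false_and, or_self, and_false]
    · have hS1 : J \ K = {e} := by
        rw [Finset.not_nonempty_iff_eq_empty] at hS
        rw [← Finset.insert_erase he, hS]
        rfl
      have hne' : (ft t e) e = !t e := by
        unfold ft
        simp
      have h1 : tyL mate col s (ft t e) K {e} ↔ tyL mate col s t K {e} :=
        or_congr (TA_single (same_equiv K) e hne').symm
          (iff_of_false (TC_single e) (TC_single e))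
      have h2 : tyH mate col s (ft t e) J {e} ↔ tyH mate col s t J {e} :=
        or_congr (TA_single (same_equiv J) e hne').symm
          (iff_of_false (TC_single e) (TC_single e))
      rw [hS1, h1, h2]
      rw [hS1] at hS
      simp only [hS, false_and, and_false, xor_self]
  · have hmem : ∀ g ∈ J \ K, (ft t e) g = t g := by
      intro g hg
      unfold ft
      rw [Function.update_of_ne]
      rintro rfl
      exact heS (Finset.mem_sdiff.1 hg)
    have h1 : tyL mate col s (ft t e) K (J \ K) ↔ tyL mate col s t K (J \ K) :=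
      or_congr (TA_congr hmem fun _ _ _ _ _ _ => Iff.rfl)
        (TC_congr hmem (fun _ _ _ _ _ _ => Iff.rfl) fun _ _ _ _ _ _ => Iff.rfl)
    have h2 : tyH mate col s (ft t e) J (J \ K) ↔ tyH mate col s t J (J \ K) :=
      or_congr (TA_congr hmem fun _ _ _ _ _ _ => Iff.rfl)
        (TC_congr hmem (fun _ _ _ _ _ _ => Iff.rfl) fun _ _ _ _ _ _ => Iff.rfl)
    rw [h1, h2]
    simp only [heS, false_and, xor_self]

theorem ind_mul_unique {p q : Cfg mate → Cfg mate → Prop} {x y : Cfg mate}
    (h : ∀ z z', q x z ∧ p z y → q x z' ∧ p z' y → z = z') [Decidable (∃ z, q x z ∧ p z y)] :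
    (ind p * ind q) y x = if ∃ z, q x z ∧ p z y then 1 else 0 := by
  classical
  rw [ind_mul_apply]
  split_ifs with h1
  · obtain ⟨z, hz⟩ := h1
    have h2 : (Finset.univ.filter fun z : Cfg mate => q x z ∧ p z y) = {z} := by
      ext z'
      rw [Finset.mem_filter, Finset.mem_singleton]
      constructor
      · rintro ⟨-, h3⟩
        exact h z' z h3 hz
      · rintro rfl
        exact ⟨Finset.mem_univ _, hz⟩
    rw [h2]
    simp
  · have h2 : (Finset.univ.filter fun z : Cfg mate => q x z ∧ p z y) = ∅ := by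
      rw [Finset.filter_eq_empty_iff]
      intro z _ hz
      exact h1 ⟨z, hz⟩
    rw [h2]
    simp

theorem xor_num (a b c d : Prop) [Decidable a] [Decidable b] [Decidable c] [Decidable d]
    (h : Xor a b ↔ Xor c d) : (if a then (1 : ZMod 2) else 0) =
      (if b then 1 else 0) + (if c then 1 else 0) + (if d then 1 else 0) := by
  have h2 : (1 : ZMod 2) + 1 = 0 := by decide
  unfold Xor at h
  by_cases ha : a <;> by_cases hb : b <;> by_cases hc : c <;> by_cases hd : d <;>
    simp_all

/-- DCJ -/
theorem dcj : S_DCJ := by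
  intro hOSG hG E _ _ mate col hD hO hJm hW s t e
  classical
  have huDu : (ue e : Op mate) * dl col s t * ue e = 0 := by
    ext y x
    rw [Matrix.mul_apply, Matrix.zero_apply]
    refine Finset.sum_eq_zero fun z _ => ?_
    by_contra hne
    obtain ⟨h1, h2⟩ := ne_zero_and_ne_zero_of_mul hne
    rw [Matrix.mul_apply] at h1
    obtain ⟨z', -, h3⟩ := Finset.exists_ne_zero_of_sum_ne_zero h1
    obtain ⟨h4, h5⟩ := ne_zero_and_ne_zero_of_mul h3
    have h6 : urel e z' y := ind_ne_zero h4
    have h7 : rel col s t z z' := ind_ne_zero h5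
    have h8 : urel e x z := ind_ne_zero h2
    apply h6.1
    apply h7.1.2.1
    rw [h8.2.1]
    exact Finset.mem_insert_self _ _
  have hexp : (1 + ue e : Op mate) * dl col s t * (1 + ue e) =
      dl col s t + ue e * dl col s t + dl col s t * ue e := by
    have : (1 + ue e : Op mate) * dl col s t * (1 + ue e) =
      dl col s t + ue e * dl col s t + dl col s t * ue e + ue e * dl col s t * ue e := by
      noncomm_ring
    rw [this, huDu, add_zero]
  rw [hexp]
  ext y x
  rw [Matrix.add_apply, Matrix.add_apply, dl_eq, dl_eq, ue_eq,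
    ind_mul_unique (p := urel e) (q := rel col s t), ind_mul_unique (p := rel col s t)
      (q := urel e), ind_apply, ind_apply]
  · have hkey : Xor (rel col s (ft t e) x y) (rel col s t x y) ↔
        Xor (∃ z, rel col s t x z ∧ urel e z y) (∃ z, urel e x z ∧ rel col s t z y) := by
      by_cases h : x.f = y.f ∧ x.K ⊆ y.K ∧ y.w = x.w + 2
      · obtain ⟨K, f, hK⟩ := x
        obtain ⟨J, f', hJ⟩ := y
        obtain ⟨h1, h2, h3⟩ := h
        have h1' : f = f' := h1
        subst h1'
        exact key hOSG hG hD hO hJm hW hK hJ h2 h3 s t e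
      · have h1 : ¬ rel col s (ft t e) x y := fun h' => h ⟨h'.1.1, h'.1.2.1, h'.1.2.2.2⟩
        have h2 : ¬ rel col s t x y := fun h' => h ⟨h'.1.1, h'.1.2.1, h'.1.2.2.2⟩
        have h3 : ¬ ∃ z, rel col s t x z ∧ urel e z y := by
          rintro ⟨z, ⟨⟨a1, a2, -, a3⟩, -⟩, a4, a5, a6, a7⟩
          refine h ⟨a1.trans a6.symm, ?_, a7.trans a3⟩
          rw [a5]
          exact a2.trans (Finset.subset_insert _ _)
        have h4 : ¬ ∃ z, urel e x z ∧ rel col s t z y := by
          rintro ⟨z, ⟨a4, a5, a6, a7⟩, ⟨⟨a1, a2, -, a3⟩, -⟩⟩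
          refine h ⟨a6.symm.trans a1, ?_, by rw [a3, a7]⟩
          rw [a5] at a2
          exact (Finset.subset_insert _ _).trans a2
        simp only [h1, h2, h3, h4]
    exact xor_num _ _ _ _ hkey
  · rintro z z' ⟨⟨b1, b2, b3, b4⟩, -⟩ ⟨⟨c1, c2, c3, c4⟩, -⟩
    exact Cfg.ext (b2.trans c2.symm) (b3.trans c3.symm)
  · rintro z z' ⟨-, b1, b2, b3, b4⟩ ⟨-, c1, c2, c3, c4⟩
    refine Cfg.ext ?_ (b3.symm.trans c3)
    rw [← Finset.erase_insert b1, ← b2, c2, Finset.erase_insert c1]

end Pool.Agent.Y71.SZ
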