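import Pool.Agent.Y465.SZ.Stm

/-!
Project Y465-SZ, job RIG: rigidity
-/

set_option linter.unusedSectionVars false
set_option autoImplicit false

namespace Pool.Agent.Y71.SZ.Rig

open Pool.Agent.Y465.SZ

variable {E : Type} [Fintype E] [DecidableEq E] {mate : E × Fin 4 → E × Fin 4}

open Classical in
/-- put the label x on the circle of `j` -/
noncomputable def X (j : E × Fin 4) (x : Cfg mate) : Cfg mate :=
  ⟨x.K, fun h => x.f h || decide (Same mate x.K j h), x.inv.or (inv_class _ _)⟩

open Classical in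
/-- put the label 1 on the circle of `j` -/
noncomputable def R (j : E × Fin 4) (x : Cfg mate) : Cfg mate :=
  ⟨x.K, fun h => x.f h && !decide (Same mate x.K j h), x.inv.and (inv_class _ _).not⟩

theorem X_f_iff (j : E × Fin 4) (x : Cfg mate) (h : E × Fin 4) :
    (X j x).f h = true ↔ x.f h = true ∨ Same mate x.K j h := by
  unfold X
  simp

theorem R_f_iff (j : E × Fin 4) (x : Cfg mate) (h : E × Fin 4) :
    (R j x).f h = true ↔ x.f h = true ∧ ¬ Same mate x.K j h := by
  unfold R
  simp

theorem cfg_ext {x y : Cfg mate} (hK : x.K = y.K) (hf : ∀ h, x.f h = true ↔ y.f h = true) :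
    x = y :=
  Cfg.ext hK (funext fun h => Bool.eq_iff_iff.2 (hf h))

theorem X_R {j : E × Fin 4} {y : Cfg mate} (hj : y.f j = true) : X j (R j y) = y := by
  refine cfg_ext rfl fun h => ?_
  rw [X_f_iff, R_f_iff]
  show (y.f h = true ∧ ¬ Same mate y.K j h) ∨ Same mate y.K j h ↔ _
  constructor
  · rintro (h1 | h1)
    · exact h1.1
    · rw [← h1 _ y.inv, hj]
  · intro h1
    by_cases h2 : Same mate y.K j h
    · exact Or.inr h2
    · exact Or.inl ⟨h1, h2⟩

theorem R_X {j : E × Fin 4} {x : Cfg mate} (hj : x.f j = false) : R j (X j x) = x := by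
  refine cfg_ext rfl fun h => ?_
  rw [R_f_iff, X_f_iff]
  show (x.f h = true ∨ Same mate x.K j h) ∧ ¬ Same mate x.K j h ↔ _
  constructor
  · rintro ⟨h1 | h1, h2⟩
    · exact h1
    · exact absurd h1 h2
  · intro h1
    refine ⟨Or.inl h1, fun h2 => ?_⟩
    rw [← h2 _ x.inv, hj] at h1
    exact Bool.noConfusion h1

theorem R_self (j : E × Fin 4) (y : Cfg mate) : (R j y).f j = false := by
  rw [← Bool.not_eq_true, R_f_iff]
  exact fun h => h.2 (Same.refl _ _)

theorem X_self (j : E × Fin 4) (y : Cfg mate) : (X j y).f j = true := by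
  rw [X_f_iff]
  exact Or.inr (Same.refl _ _)

theorem ll_iff (hW : WTF mate) (t : E → Bool) (j : E × Fin 4) {x z : Cfg mate}
    (hK : z.K = x.K) :
    ((LP t x z ∧ z.w = x.w + 2) ∧ x.f j = false ∧ z.f j = true) ↔ x.f j = false ∧ z = X j x := by
  obtain ⟨K, f, hf⟩ := x
  obtain ⟨K', g, hg⟩ := z
  have hK' : K' = K := hK
  subst hK'
  constructor
  · rintro ⟨⟨⟨-, h1, -⟩, h2⟩, h3, h4⟩
    refine ⟨h3, cfg_ext rfl fun h => ?_⟩
    have h1' : ∀ h, f h = true → g h = true := h1
    have h2' : wt mate K' g = wt mate K' f + 2 := h2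
    have h3' : f j = false := h3
    have h4' : g j = true := h4
    have h5 := hW.lab K' f g hf hg h1'
    have h6 : cn mate K' (fun h => g h && !f h) = 1 := by omega
    have h7 := ((hW.cn1 K' _ (hg.and hf.not)).1 h6).2
    rw [X_f_iff]
    show g h = true ↔ f h = true ∨ Same mate K' j h
    constructor
    · intro h8
      by_cases h9 : f h = true
      · exact Or.inl h9
      · rw [Bool.not_eq_true] at h9
        exact Or.inr (h7 j h (by simp [h3', h4']) (by simp [h8, h9]))
    · rintro (h8 | h8)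
      · exact h1' h h8
      · rw [← h8 g hg, h4']
  · rintro ⟨h3, h4⟩
    rw [h4]
    have h3' : f j = false := h3
    refine ⟨⟨⟨subset_rfl, fun h h1 => (X_f_iff _ _ _).2 (Or.inl h1), fun e h1 h2 => absurd h1 h2⟩,
      ?_⟩, h3, X_self _ _⟩
    have h5 := hW.lab K' f (X j ⟨K', f, hf⟩ : Cfg mate).f hf (X j ⟨K', f, hf⟩ : Cfg mate).inv
      (fun h h1 => (X_f_iff _ _ _).2 (Or.inl h1))
    have h6 : cn mate K' (fun h => (X j ⟨K', f, hf⟩ : Cfg mate).f h && !f h) = 1 := by
      rw [hW.cn1 K' _ ((X j ⟨K', f, hf⟩ : Cfg mate).inv.and hf.not)]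
      have h7 : ∀ h, ((X j ⟨K', f, hf⟩ : Cfg mate).f h && !f h) = true → Same mate K' j h := by
        intro h h8
        rw [Bool.and_eq_true, X_f_iff, Bool.not_eq_true'] at h8
        rcases h8.1 with h9 | h9
        · have h9' : f h = true := h9
          rw [h8.2] at h9'
          exact Bool.noConfusion h9'
        · exact h9
      refine ⟨⟨j, ?_⟩, fun h h' h8 h9 => (h7 h h8).symm.trans (h7 h' h9)⟩
      rw [X_self, h3']
      rfl
    rw [h6] at h5
    show wt mate K' (X j ⟨K', f, hf⟩ : Cfg mate).f = wt mate K' f + 2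
    rw [h5]
    norm_num

theorem ent1 (hWT : WTF mate) {t : E → Bool} {W : Op mate} {k : ℕ}
    (hk : ∀ a b, W b a ≠ 0 → a.K ⊆ b.K ∧ k ≤ (b.K \ a.K).card) {x y : Cfg mate}
    (hxy : (y.K \ x.K).card ≤ k) (j : E × Fin 4) :
    (W * LL t j : Op mate) y x = if x.f j = false then W y (X j x) else 0 := by
  have hz : ∀ z, W y z * LL t j z x ≠ 0 → x.f j = false ∧ z = X j x := by
    intro z hne
    obtain ⟨h1, h2⟩ := ne_zero_and_ne_zero_of_mul hne
    have h3 := ind_ne_zero h2
    obtain ⟨h4, h5⟩ := hk _ _ h1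
    have h6 : x.K ⊆ z.K := h3.1.1.1
    have h7 : y.K \ z.K ⊆ y.K \ x.K := Finset.sdiff_subset_sdiff subset_rfl h6
    have h8 : y.K \ z.K = y.K \ x.K := Finset.eq_of_subset_of_card_le h7 (hxy.trans h5)
    have h9 : z.K = x.K := by
      refine Finset.Subset.antisymm (fun a ha => ?_) h6
      by_contra h10
      have h11 : a ∈ y.K \ z.K := by
        rw [h8]
        exact Finset.mem_sdiff.2 ⟨h4 ha, h10⟩
      exact (Finset.mem_sdiff.1 h11).2 ha
    exact (ll_iff hWT t j h9).1 h3
  rw [Matrix.mul_apply]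
  split_ifs with h
  · rw [Finset.sum_eq_single (X j x)]
    · have h1 : LL t j (X j x) x = (1 : ZMod 2) :=
        ind_eq_one ((ll_iff hWT t j (x := x) (z := X j x) rfl).2 ⟨h, rfl⟩)
      rw [h1, mul_one]
    · intro z _ h1
      by_contra hne
      exact h1 (hz z hne).2
    · intro h1
      exact absurd (Finset.mem_univ _) h1
  · refine Finset.sum_eq_zero fun z _ => ?_
    by_contra hne
    exact h (hz z hne).1

theorem ent2 (hWT : WTF mate) {t : E → Bool} {W : Op mate} {k : ℕ}
    (hk : ∀ a b, W b a ≠ 0 → a.K ⊆ b.K ∧ k ≤ (b.K \ a.K).card) {x y : Cfg mate}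
    (hxy : (y.K \ x.K).card ≤ k) (j : E × Fin 4) :
    (LL t j * W : Op mate) y x = if y.f j = true then W (R j y) x else 0 := by
  have hz : ∀ z, LL t j y z * W z x ≠ 0 → y.f j = true ∧ z = R j y := by
    intro z hne
    obtain ⟨h1, h2⟩ := ne_zero_and_ne_zero_of_mul hne
    have h3 := ind_ne_zero h1
    obtain ⟨h4, h5⟩ := hk _ _ h2
    have h6 : z.K ⊆ y.K := h3.1.1.1
    have h7 : z.K \ x.K ⊆ y.K \ x.K := Finset.sdiff_subset_sdiff h6 subset_rfl
    have h8 : z.K \ x.K = y.K \ x.K := Finset.eq_of_subset_of_card_le h7 (hxy.trans h5)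
    have h9 : y.K = z.K := by
      refine Finset.Subset.antisymm (fun a ha => ?_) h6
      by_contra h10
      have h11 : a ∈ z.K \ x.K := by
        rw [h8]
        exact Finset.mem_sdiff.2 ⟨ha, fun h12 => h10 (h4 h12)⟩
      exact h10 (Finset.mem_sdiff.1 h11).1
    have h10 := (ll_iff hWT t j h9).1 h3
    refine ⟨h3.2.2, ?_⟩
    rw [h10.2, R_X h10.1]
  rw [Matrix.mul_apply]
  split_ifs with h
  · rw [Finset.sum_eq_single (R j y)]
    · have h1 : LL t j y (R j y) = (1 : ZMod 2) :=
        ind_eq_one ((ll_iff hWT t j (x := R j y) (z := y) rfl).2 ⟨R_self j y, (X_R h).symm⟩)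
      rw [h1, one_mul]
    · intro z _ h1
      by_contra hne
      exact h1 (hz z hne).2
    · intro h1
      exact absurd (Finset.mem_univ _) h1
  · refine Finset.sum_eq_zero fun z _ => ?_
    by_contra hne
    exact h (hz z hne).1

theorem inv_zero (K : Finset E) : Inv mate K (fun _ => false) := ⟨fun _ => rfl, fun _ => rfl⟩

/-- RIG -/
theorem rig : S_RIG := by
  intro E _ _ mate hO hWT hC _ t W hsup hcomm
  classical
  by_contra hW0
  have hex : ∃ n, ∃ x y : Cfg mate, W y x ≠ 0 ∧ (y.K \ x.K).card = n := by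
    by_contra h
    apply hW0
    ext y x
    by_contra h1
    exact h ⟨_, x, y, h1, rfl⟩
  obtain ⟨x0, y0, hne0, hcard⟩ := Nat.find_spec hex
  have hk : ∀ a b, W b a ≠ 0 → a.K ⊆ b.K ∧ Nat.find hex ≤ (b.K \ a.K).card := by
    intro a b h
    exact ⟨(hsup a b h).1, Nat.find_le ⟨a, b, h, rfl⟩⟩
  obtain ⟨hIJ, hIJne, -⟩ := hsup _ _ hne0
  -- the commutation relation
  have hrel : ∀ x y : Cfg mate, x.K = x0.K → y.K = y0.K → ∀ j,
      (if x.f j = false then W y (X j x) else 0) = if y.f j = true then W (R j y) x else 0 := by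
    intro x y hx hy j
    have h1 : (y.K \ x.K).card ≤ Nat.find hex := by
      rw [hx, hy, hcard]
    rw [← ent1 (t := t) hWT hk h1, ← ent2 (t := t) hWT hk h1, hcomm j]
  have hc0 : ∀ M M' : Finset E, M ⊆ M' → wt mate M (fun _ => false) ≤ wt mate M' (fun _ => false) :=
    fun M M' h => (hC.c1 M M' _ h (inv_zero M) fun _ _ _ => ⟨rfl, rfl⟩).1
  -- step 1
  have hs1 : ∀ y : Cfg mate, y.K = y0.K → W y ⟨x0.K, fun _ => false, inv_zero _⟩ ≠ 0 →
      y = ⟨y0.K, fun _ => false, inv_zero _⟩ ∧
        wt mate y0.K (fun _ => false) = wt mate x0.K (fun _ => false) := by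
    rintro ⟨J, g, hg⟩ hJ hne
    have hJ' : J = y0.K := hJ
    subst hJ'
    have h1 : wt mate y0.K g = wt mate x0.K (fun _ => false) := (hsup _ _ hne).2.2
    have h2 : wt mate y0.K g = wt mate y0.K (fun _ => false) +
        2 * (cn mate y0.K (fun h => g h && !false) : ℤ) :=
      hWT.lab y0.K (fun _ => false) g (inv_zero _) hg (fun h h' => Bool.noConfusion h')
    have h3 := hc0 x0.K y0.K hIJ
    have h4 : cn mate y0.K (fun h => g h && !false) = 0 := by omega
    have h5 := (hWT.cn0 y0.K _ (hg.and (inv_zero _).not)).1 h4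
    refine ⟨cfg_ext rfl fun h => ?_, by omega⟩
    have h6 : (g h && !false) = false := h5 h
    rw [Bool.not_false, Bool.and_true] at h6
    show g h = true ↔ false = true
    rw [h6]
  -- step 2
  have hlam : W ⟨y0.K, fun _ => false, inv_zero _⟩ ⟨x0.K, fun _ => false, inv_zero _⟩ ≠ 0 := by
    intro hlam
    have h1 : ∀ n, ∀ x y : Cfg mate, x.K = x0.K → y.K = y0.K →
        (Finset.univ.filter fun h => x.f h = true).card = n → W y x = 0 := by
      intro n
      induction n using Nat.strong_induction_on with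
      | _ n ih =>
        intro x y hx hy hn
        by_cases hxf : ∃ j, x.f j = true
        · obtain ⟨j, hj⟩ := hxf
          have h2 := hrel (R j x) y hx hy j
          rw [if_pos (R_self j x), X_R hj] at h2
          rw [h2]
          split_ifs with h3
          · refine ih _ ?_ (R j x) (R j y) hx hy rfl
            rw [← hn]
            apply Finset.card_lt_card
            rw [Finset.ssubset_iff_of_subset]
            · refine ⟨j, by simp [hj], ?_⟩
              simp [R_self]
            · intro h h4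
              rw [Finset.mem_filter] at h4 ⊢
              exact ⟨h4.1, ((R_f_iff _ _ _).1 h4.2).1⟩
          · rfl
        · have h2 : x = ⟨x0.K, fun _ => false, inv_zero _⟩ := by
            refine cfg_ext hx fun h => ?_
            constructor
            · intro h3
              exact absurd ⟨h, h3⟩ hxf
            · intro h3
              exact Bool.noConfusion h3
          rw [h2]
          by_contra h3
          rw [(hs1 y hy h3).1] at h3
          exact h3 hlam
    exact hne0 (h1 _ x0 y0 rfl rfl rfl)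
  -- step 3
  obtain ⟨-, hwt⟩ := hs1 ⟨y0.K, fun _ => false, inv_zero _⟩ rfl hlam
  obtain ⟨e, heJ, heI⟩ : ∃ e ∈ y0.K, e ∉ x0.K := by
    by_contra h
    push Not at h
    exact hIJne (Finset.Subset.antisymm hIJ h)
  have hI : Same mate x0.K (e, 0) (e, 2) := by
    by_contra h
    have h1 := hWT.m1 x0.K e (fun _ => false) heI (inv_zero _) rfl rfl h
    have h2 := hc0 (insert e x0.K) y0.K (Finset.insert_subset heJ hIJ)
    omega
  have hJ : ¬ Same mate y0.K (e, 0) (e, 2) := by
    intro h
    have h0 : ¬ Same mate (y0.K.erase e) (e, 0) (e, 2) := by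
      have h1 := hO y0.K e
      unfold tog at h1
      rw [if_pos heJ] at h1
      exact fun h2 => h1.1 h2 h
    have h1 := hWT.m1 (y0.K.erase e) e (fun _ => false) (Finset.notMem_erase _ _) (inv_zero _)
      rfl rfl h0
    rw [Finset.insert_erase heJ] at h1
    have h2 := hc0 x0.K (y0.K.erase e) (fun x hx => Finset.mem_erase.2
      ⟨fun h3 => heI (h3 ▸ hx), hIJ hx⟩)
    omega
  have h1 := hrel ⟨x0.K, fun _ => false, inv_zero _⟩
    (X (e, 0) ⟨y0.K, fun _ => false, inv_zero _⟩) rfl rfl (e, 0)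
  have h2 := hrel ⟨x0.K, fun _ => false, inv_zero _⟩
    (X (e, 0) ⟨y0.K, fun _ => false, inv_zero _⟩) rfl rfl (e, 2)
  rw [if_pos rfl, if_pos (X_self _ _), R_X rfl] at h1
  have h3 : ¬ (X (e, 0) (⟨y0.K, fun _ => false, inv_zero _⟩ : Cfg mate)).f (e, 2) = true := by
    rw [X_f_iff]
    rintro (h | h)
    · exact Bool.noConfusion h
    · exact hJ h
  rw [if_pos rfl, if_neg h3] at h2
  have h4 : X (e, 2) (⟨x0.K, fun _ => false, inv_zero _⟩ : Cfg mate) =
      X (e, 0) (⟨x0.K, fun _ => false, inv_zero _⟩ : Cfg mate) := by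
    refine cfg_ext rfl fun h => ?_
    rw [X_f_iff, X_f_iff]
    refine or_congr Iff.rfl ?_
    show Same mate x0.K (e, 2) h ↔ Same mate x0.K (e, 0) h
    exact ⟨fun h => hI.trans h, fun h => hI.symm.trans h⟩
  rw [h4, h1] at h2
  exact hlam h2

end Pool.Agent.Y71.SZ.Rig
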