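import Pool.Agent.Y71.SZ.DcjA

/-!
Project Y465-SZ, job DCJ, second part: the entries
-/

set_option linter.unusedSectionVars false
set_option autoImplicit false

namespace Pool.Agent.Y71.SZ

open Pool.Agent.Y465.SZ

variable {E : Type} [Fintype E] [DecidableEq E] {mate : E × Fin 4 → E × Fin 4}

/-- locality of circles -/
theorem same_loc {K K' : Finset E} {v : E × Fin 4 → Bool} (hv : Inv mate K v)
    (hv' : Inv mate K' v) (hd : ∀ e, (e ∈ K ↔ ¬ e ∈ K') → v (e, 0) = false) {h h' : E × Fin 4}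
    (hh : v h = true) (hs : Same mate K h h') : Same mate K' h h' := by
  intro k hk
  have h1 : Inv mate K (fun x => k x && v x) := by
    refine inv_congr (hk.and hv') fun e he => ?_
    have he' : e ∈ K ↔ ¬ e ∈ K' := by tauto
    have h0 := hd e he'
    have h2 : v (e, 2) = v (e, 0) := by
      by_cases h3 : e ∈ K
      · exact inv_const hv hv' h3 (he'.1 h3) 2
      · exact inv_const hv' hv (by tauto) h3 2
    rw [h2, h0, Bool.and_false, Bool.and_false]
  have h2 := hs _ h1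
  have h3 := hs _ hv
  rw [hh] at h3
  rw [← h3, hh, Bool.and_true, Bool.and_true] at h2
  exact h2

theorem same_loc_iff {K K' : Finset E} {v : E × Fin 4 → Bool} (hv : Inv mate K v)
    (hv' : Inv mate K' v) (hd : ∀ e, (e ∈ K ↔ ¬ e ∈ K') → v (e, 0) = false) {h h' : E × Fin 4}
    (hh : v h = true) : Same mate K h h' ↔ Same mate K' h h' :=
  ⟨same_loc hv hv' hd hh, same_loc hv' hv (fun e he => hd e (by tauto)) hh⟩

theorem inv_between {K J M : Finset E} {f : E × Fin 4 → Bool} (hK : Inv mate K f)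
    (hJ : Inv mate J f) (hKM : K ⊆ M) (hMJ : M ⊆ J) : Inv mate M f := by
  refine inv_congr hK fun e he => ?_
  have h1 : e ∉ K := fun h => he.1 h (hKM h)
  have h2 : e ∈ M := by
    by_contra h
    exact h1 (he.2 h)
  exact (inv_const hJ hK (hMJ h2) h1 2).symm

section types

variable {A : Type} {R R' : A × Bool → A × Bool → Prop} {R1 R1' : A → A × Bool → A × Bool → Prop}
  {t t' : A → Bool} {S : Finset A} {s : Bool} {kind : A → Bool}

theorem TA_congr (h : ∀ e ∈ S, t e = t' e)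
    (hR : ∀ e ∈ S, ∀ f ∈ S, ∀ b c, R (e, b) (f, c) ↔ R' (e, b) (f, c)) :
    TA R t S ↔ TA R' t' S := by
  unfold TA
  refine and_congr (forall₂_congr fun e he => forall₂_congr fun f hf => ?_)
    (forall₂_congr fun e he => ?_)
  · rw [h e he, h f hf, hR e he f hf, hR e he f hf]
  · rw [h e he, hR e he e he]

theorem TC_congr (h : ∀ e ∈ S, t e = t' e)
    (hR : ∀ e ∈ S, ∀ f ∈ S, ∀ b c, R (e, b) (f, c) ↔ R' (e, b) (f, c))
    (hR1 : ∀ e ∈ S, ∀ f ∈ S, ∀ b c, R1 e (f, b) (e, c) ↔ R1' e (f, b) (e, c)) :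
    TC s kind R R1 t S ↔ TC s kind R' R1' t' S := by
  unfold TC
  refine and_congr (forall₂_congr fun e he => forall₂_congr fun f hf => ?_)
    (and_congr Iff.rfl (and_congr Iff.rfl
      (forall₂_congr fun e he => forall₂_congr fun f hf => imp_congr Iff.rfl ?_)))
  · rw [h e he, h f hf, hR e he f hf, hR e he f hf]
  · rw [h e he, h f hf, hR1 e he f hf, hR1 e he f hf]

theorem TA_single (hR : Equivalence R) (e : A) (h : t' e = !t e) :
    TA R t {e} ↔ TA R t' {e} := by
  unfold TA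
  simp only [Finset.mem_singleton, forall_eq, h, Bool.not_not]
  constructor
  · rintro ⟨-, h1⟩
    exact ⟨⟨hR.refl _, hR.refl _⟩, fun h2 => h1 (hR.symm h2)⟩
  · rintro ⟨-, h1⟩
    exact ⟨⟨hR.refl _, hR.refl _⟩, fun h2 => h1 (hR.symm h2)⟩

theorem TC_single (e : A) : ¬ TC s kind R R1 t {e} := by
  rintro ⟨-, ⟨a, ha, ha'⟩, ⟨b, hb, hb'⟩, -⟩
  rw [Finset.mem_singleton] at ha hb
  subst ha
  subst hb
  rw [ha'] at hb'
  exact Bool.noConfusion hb'

end types

/-- types over a lower state -/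
def tyL (mate : E × Fin 4 → E × Fin 4) (col : E × Fin 4 → Bool) (s : Bool) (t : E → Bool)
    (K S : Finset E) : Prop :=
  TA (fun p q => Same mate K (pt p) (pt q)) t S ∨
    TC s (fun e => col (e, 0)) (fun p q => Same mate K (pt p) (pt q))
      (fun e p q => Same mate (insert e K) (pt p) (pt q)) t S

/-- types over an upper state -/
def tyH (mate : E × Fin 4 → E × Fin 4) (col : E × Fin 4 → Bool) (s : Bool) (t : E → Bool)
    (K S : Finset E) : Prop :=
  TA (fun p q => Same mate K (pt p) (pt q)) t S ∨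
    TC s (fun e => col (e, 0)) (fun p q => Same mate K (pt p) (pt q))
      (fun e p q => Same mate (K.erase e) (pt p) (pt q)) t S

/-- constant labels at the ends -/
def allv (b : Bool) (S : Finset E) (f : E × Fin 4 → Bool) : Prop :=
  ∀ e ∈ S, f (e, 0) = b ∧ f (e, 2) = b

/-- the relation of the label preserving part -/
def rel (col : E × Fin 4 → Bool) (s : Bool) (t : E → Bool) (x y : Cfg mate) : Prop :=
  (x.f = y.f ∧ x.K ⊆ y.K ∧ (y.K \ x.K).Nonempty ∧ y.w = x.w + 2) ∧
    ((allv false (y.K \ x.K) x.f ∧ tyL mate col s t x.K (y.K \ x.K)) ∨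
      (allv true (y.K \ x.K) x.f ∧ tyH mate col s t y.K (y.K \ x.K)))

theorem dl_eq (col : E × Fin 4 → Bool) (s : Bool) (t : E → Bool) :
    (dl col s t : Op mate) = ind (rel col s t) := rfl

/-- the relation of `ue` -/
def urel (e : E) (x y : Cfg mate) : Prop :=
  e ∉ x.K ∧ y.K = insert e x.K ∧ y.f = x.f ∧ y.w = x.w

theorem ue_eq (e : E) : (ue e : Op mate) = ind (urel e) := rfl

variable {col : E × Fin 4 → Bool} {s : Bool} {t : E → Bool} {K J : Finset E}
  {f : E × Fin 4 → Bool}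

theorem rel_iff (hK : Inv mate K f) (hJ : Inv mate J f) (hKJ : K ⊆ J)
    (hw : wt mate J f = wt mate K f + 2) :
    rel col s t (⟨K, f, hK⟩ : Cfg mate) ⟨J, f, hJ⟩ ↔ (J \ K).Nonempty ∧
      ((allv false (J \ K) f ∧ tyL mate col s t K (J \ K)) ∨
        (allv true (J \ K) f ∧ tyH mate col s t J (J \ K))) := by
  unfold rel
  constructor
  · rintro ⟨⟨-, -, h1, -⟩, h2⟩
    exact ⟨h1, h2⟩
  · rintro ⟨h1, h2⟩
    exact ⟨⟨rfl, hKJ, h1, hw⟩, h2⟩

theorem erase_sdiff (J K : Finset E) (e : E) : J.erase e \ K = (J \ K).erase e := by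
  ext x
  simp only [Finset.mem_sdiff, Finset.mem_erase]
  tauto

theorem sdiff_insert' (J K : Finset E) (e : E) : J \ insert e K = (J \ K).erase e := by
  ext x
  simp only [Finset.mem_sdiff, Finset.mem_erase, Finset.mem_insert]
  tauto

theorem exA_iff (hK : Inv mate K f) (hJ : Inv mate J f) (hKJ : K ⊆ J)
    (hw : wt mate J f = wt mate K f + 2) (e : E) :
    (∃ z : Cfg mate, rel col s t (⟨K, f, hK⟩ : Cfg mate) z ∧ urel e z ⟨J, f, hJ⟩) ↔
      (e ∈ J ∧ e ∉ K) ∧ wt mate (J.erase e) f = wt mate J f ∧ ((J \ K).erase e).Nonempty ∧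
      ((allv false ((J \ K).erase e) f ∧ tyL mate col s t K ((J \ K).erase e)) ∨
        (allv true ((J \ K).erase e) f ∧
          tyH mate col s t (J.erase e) ((J \ K).erase e))) := by
  constructor
  · rintro ⟨⟨Kz, fz, hz⟩, ⟨⟨h1, h2, h3, h4⟩, h5⟩, h6, h7, h8, h9⟩
    have e1 : f = fz := h1
    subst e1
    have h6' : e ∉ Kz := h6
    have h7' : J = insert e Kz := h7
    have e2 : Kz = J.erase e := by rw [h7', Finset.erase_insert h6']
    subst e2
    have h3' : (J.erase e \ K).Nonempty := h3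
    have h5' : (allv false (J.erase e \ K) f ∧ tyL mate col s t K (J.erase e \ K)) ∨
      (allv true (J.erase e \ K) f ∧ tyH mate col s t (J.erase e) (J.erase e \ K)) := h5
    rw [erase_sdiff] at h3' h5'
    have h10 : e ∈ J := by
      rw [h7']
      exact Finset.mem_insert_self _ _
    have h9' : wt mate J f = wt mate (J.erase e) f := h9
    exact ⟨⟨h10, fun h => h6' (h2 h)⟩, h9'.symm, h3', h5'⟩
  · rintro ⟨⟨h1, h2⟩, h3, h4, h5⟩
    have h6 : K ⊆ J.erase e := fun x hx => Finset.mem_erase.2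
      ⟨fun h => h2 (by rw [← h]; exact hx), hKJ hx⟩
    have hz : Inv mate (J.erase e) f := inv_between hK hJ h6 (Finset.erase_subset _ _)
    refine ⟨⟨J.erase e, f, hz⟩, (rel_iff hK hz h6 (by rw [h3, hw])).2 ?_, Finset.notMem_erase _ _,
      (Finset.insert_erase h1).symm, rfl, h3.symm⟩
    rw [erase_sdiff]
    exact ⟨h4, h5⟩

theorem exB_iff (hK : Inv mate K f) (hJ : Inv mate J f) (hKJ : K ⊆ J)
    (hw : wt mate J f = wt mate K f + 2) (e : E) :
    (∃ z : Cfg mate, urel e (⟨K, f, hK⟩ : Cfg mate) z ∧ rel col s t z ⟨J, f, hJ⟩) ↔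
      (e ∈ J ∧ e ∉ K) ∧ wt mate (insert e K) f = wt mate K f ∧ ((J \ K).erase e).Nonempty ∧
      ((allv false ((J \ K).erase e) f ∧ tyL mate col s t (insert e K) ((J \ K).erase e)) ∨
        (allv true ((J \ K).erase e) f ∧ tyH mate col s t J ((J \ K).erase e))) := by
  constructor
  · rintro ⟨⟨Kz, fz, hz⟩, ⟨h6, h7, h8, h9⟩, ⟨h1, h2, h3, h4⟩, h5⟩
    have e1 : fz = f := h8
    subst e1
    have h6' : e ∉ K := h6
    have e2 : Kz = insert e K := h7
    subst e2
    have h3' : (J \ insert e K).Nonempty := h3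
    have h5' : (allv false (J \ insert e K) fz ∧ tyL mate col s t (insert e K) (J \ insert e K)) ∨
      (allv true (J \ insert e K) fz ∧ tyH mate col s t J (J \ insert e K)) := h5
    rw [sdiff_insert'] at h3' h5'
    exact ⟨⟨h2 (Finset.mem_insert_self _ _), h6'⟩, h9, h3', h5'⟩
  · rintro ⟨⟨h1, h2⟩, h3, h4, h5⟩
    have h6 : insert e K ⊆ J := Finset.insert_subset h1 hKJ
    have hz : Inv mate (insert e K) f := inv_between hK hJ (Finset.subset_insert _ _) h6
    refine ⟨⟨insert e K, f, hz⟩, ⟨h2, rfl, rfl, h3⟩, (rel_iff hz hJ h6 (by rw [h3, hw])).2 ?_⟩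
    rw [sdiff_insert']
    exact ⟨h4, h5⟩

end Pool.Agent.Y71.SZ
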