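import Pool.Agent.Y465.SZ.Sq
import Pool.Agent.Y465.SZ.Asm1
import Pool.Agent.Y71.SZ.DcjB
import Pool.Agent.Y71.SZ.RIG

/-!
Project Y465-SZ, job SQB: the square of the label preserving part vanishes
-/

set_option linter.unusedSectionVars false
set_option autoImplicit false

namespace Pool.Agent.Y71.SZ.Sqb

open Pool.Agent.Y465.SZ Pool.Agent.Y71.SZ Pool.Agent.Y71.SZ.Rig

variable {E : Type} [Fintype E] [DecidableEq E] {mate : E × Fin 4 → E × Fin 4}

/-- the square of the label preserving part -/
noncomputable def QQ (mate : E × Fin 4 → E × Fin 4) (col : E × Fin 4 → Bool) (s : Bool)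
    (t : E → Bool) : Op mate := dl col s t * dl col s t

theorem QQ_ne {col : E × Fin 4 → Bool} {s : Bool} {t : E → Bool} {x y : Cfg mate}
    (h : QQ mate col s t y x ≠ 0) : ∃ z, rel col s t x z ∧ rel col s t z y := by
  unfold QQ at h
  rw [Matrix.mul_apply] at h
  obtain ⟨z, -, h3⟩ := Finset.exists_ne_zero_of_sum_ne_zero h
  obtain ⟨h4, h5⟩ := ne_zero_and_ne_zero_of_mul h3
  exact ⟨z, ind_ne_zero h5, ind_ne_zero h4⟩

theorem QQ_conj {col : E × Fin 4 → Bool} {s : Bool}
    (hd : ∀ (t : E → Bool) (e : E),
      (dl col s (ft t e) : Op mate) = (1 + ue e) * dl col s t * (1 + ue e))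
    (t : E → Bool) (e : E) :
    QQ mate col s (ft t e) = QQ mate col s t + ue e * QQ mate col s t +
      QQ mate col s t * ue e + ue e * QQ mate col s t * ue e := by
  unfold QQ
  rw [hd]
  have h2 := one_add_ue_sq (mate := mate) e
  calc (1 + ue e) * dl col s t * (1 + ue e) * ((1 + ue e) * dl col s t * (1 + ue e))
      = (1 + ue e) * dl col s t * ((1 + (ue e : Op mate)) * (1 + ue e)) *
          dl col s t * (1 + ue e) := by noncomm_ring
    _ = (1 + ue e) * (dl col s t * dl col s t) * (1 + ue e) := by
        rw [h2]; noncomm_ring
    _ = _ := by noncomm_ring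

theorem bne {a b : Bool} (h : ¬ a = b) : (!a) = b := by
  revert a b
  decide

/-- independence of the decoration at the crossings which change -/
theorem dec_inv {col : E × Fin 4 → Bool} {s : Bool}
    (hd : ∀ (t : E → Bool) (e : E),
      (dl col s (ft t e) : Op mate) = (1 + ue e) * dl col s t * (1 + ue e))
    {x y : Cfg mate}
    (IH : ∀ (t : E → Bool) (a b : Cfg mate), (b.K \ a.K).card < (y.K \ x.K).card →
      QQ mate col s t b a = 0) :
    ∀ t t' : E → Bool, (∀ e, e ∉ y.K \ x.K → t' e = t e) →
      QQ mate col s t' y x = QQ mate col s t y x := by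
  have inv1 : ∀ (t : E → Bool) (e : E), e ∈ y.K \ x.K →
      QQ mate col s (ft t e) y x = QQ mate col s t y x := by
    intro t e he
    rw [QQ_conj hd t e]
    simp only [Matrix.add_apply]
    have hcard1 : ∀ z : Cfg mate, e ∉ z.K → y.K = insert e z.K →
        (z.K \ x.K).card < (y.K \ x.K).card := by
      intro z hz hy
      apply Finset.card_lt_card
      rw [Finset.ssubset_iff_of_subset]
      · exact ⟨e, he, by simp [hz]⟩
      · rw [hy]
        exact Finset.sdiff_subset_sdiff (Finset.subset_insert _ _) (le_refl _)
    have hcard2 : ∀ z : Cfg mate, z.K = insert e x.K →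
        (y.K \ z.K).card < (y.K \ x.K).card := by
      intro z hz
      apply Finset.card_lt_card
      rw [Finset.ssubset_iff_of_subset]
      · exact ⟨e, he, by simp [hz]⟩
      · rw [hz]
        exact Finset.sdiff_subset_sdiff (le_refl _) (Finset.subset_insert _ _)
    have h1 : (ue e * QQ mate col s t : Op mate) y x = 0 := by
      apply ue_mul_zero
      intro z hz hy hf
      exact IH t x z (hcard1 z hz hy)
    have h2 : (QQ mate col s t * ue e : Op mate) y x = 0 := by
      apply mul_ue_zero
      intro z _ hz hf
      exact IH t z y (hcard2 z hz)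
    have h3 : (ue e * QQ mate col s t * ue e : Op mate) y x = 0 := by
      apply mul_ue_zero
      intro z _ hz hf
      apply ue_mul_zero
      intro z' hz' hy hf'
      refine IH t z z' (lt_of_le_of_lt ?_ (hcard1 z' hz' hy))
      apply Finset.card_le_card
      rw [hz]
      exact Finset.sdiff_subset_sdiff (le_refl _) (Finset.subset_insert _ _)
    rw [h1, h2, h3]
    simp
  have inv2 : ∀ (F : Finset E), F ⊆ y.K \ x.K → ∀ t t' : E → Bool, (∀ e, e ∉ F → t' e = t e) →
      QQ mate col s t' y x = QQ mate col s t y x := by
    intro F
    induction F using Finset.induction_on with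
    | empty =>
      intro _ t t' h
      have : t' = t := funext fun e => h e (Finset.notMem_empty _)
      rw [this]
    | insert e F he ih =>
      intro hF t t' h
      by_cases htt : t e = t' e
      · apply ih (fun a ha => hF (Finset.mem_insert_of_mem ha))
        intro a ha
        by_cases hae : a = e
        · rw [hae]; exact htt.symm
        · exact h a (by simp [hae, ha])
      · rw [← inv1 t e (hF (Finset.mem_insert_self _ _))]
        apply ih (fun a ha => hF (Finset.mem_insert_of_mem ha))
        intro a ha
        by_cases hae : a = e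
        · subst hae
          unfold ft
          rw [Function.update_self]
          exact (bne htt).symm
        · unfold ft
          rw [Function.update_of_ne hae]
          exact h a (by simp [hae, ha])
  exact inv2 _ subset_rfl

theorem cn_congr {K J : Finset E} (h : ∀ j k, Same mate K j k ↔ Same mate J j k)
    (g : E × Fin 4 → Bool) : cn mate K g = cn mate J g := by
  unfold cn
  simp only [h]

theorem tyL_tog {col : E × Fin 4 → Bool} {s : Bool} {t : E → Bool} {K S : Finset E}
    (hS : ∀ e ∈ S, e ∉ K) (h : tyL mate col s t K S) :
    TA (fun p q => Same mate K (pt p) (pt q)) t S ∨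
      TC s (fun e => col (e, 0)) (fun p q => Same mate K (pt p) (pt q))
        (fun e p q => Same mate (tog K e) (pt p) (pt q)) t S := by
  rcases h with h | h
  · exact Or.inl h
  · refine Or.inr ((TC_congr (fun _ _ => rfl) (fun _ _ _ _ _ _ => Iff.rfl) ?_).1 h)
    intro e he f hf b c
    show Same mate (insert e K) (pt (f, b)) (pt (e, c)) ↔ Same mate (tog K e) (pt (f, b)) (pt (e, c))
    rw [tog_not_mem (hS e he)]

theorem tyH_tog {col : E × Fin 4 → Bool} {s : Bool} {t : E → Bool} {K S : Finset E}
    (hS : ∀ e ∈ S, e ∈ K) (h : tyH mate col s t K S) :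
    TA (fun p q => Same mate K (pt p) (pt q)) t S ∨
      TC s (fun e => col (e, 0)) (fun p q => Same mate K (pt p) (pt q))
        (fun e p q => Same mate (tog K e) (pt p) (pt q)) t S := by
  rcases h with h | h
  · exact Or.inl h
  · refine Or.inr ((TC_congr (fun _ _ => rfl) (fun _ _ _ _ _ _ => Iff.rfl) ?_).1 h)
    intro e he f hf b c
    show Same mate (K.erase e) (pt (f, b)) (pt (e, c)) ↔ Same mate (tog K e) (pt (f, b)) (pt (e, c))
    rw [tog_mem (hS e he)]

/-- SQB -/
theorem sqb : S_SQB := by
  intro hSQA E _ _ mate col hD hO hJ hW s hdl hcomm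
  have main : ∀ (n : ℕ) (t : E → Bool) (x y : Cfg mate), (y.K \ x.K).card = n →
      QQ mate col s t y x = 0 := by
    intro n
    induction n using Nat.strong_induction_on with
    | _ n IH =>
      intro t x y hn
      by_contra hne
      have IH' : ∀ (t : E → Bool) (a b : Cfg mate), (b.K \ a.K).card < (y.K \ x.K).card →
          QQ mate col s t b a = 0 := fun t a b h => IH _ (by rw [← hn]; exact h) t a b rfl
      have hinv := dec_inv hdl IH'
      obtain ⟨z0, hz1, hz2⟩ := QQ_ne hne
      have hfxy : x.f = y.f := hz1.1.1.trans hz2.1.1
      have hKxy : x.K ⊆ y.K := hz1.1.2.1.trans hz2.1.2.1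
      have hwxy : y.w = x.w + 4 := by
        have h1 := hz1.1.2.2.2
        have h2 := hz2.1.2.2.2
        omega
      -- the relation with the operators `L_j`
      have hk : ∀ a b, QQ mate col s t b a ≠ 0 → a.K ⊆ b.K ∧ n ≤ (b.K \ a.K).card := by
        intro a b h
        obtain ⟨z, h1, h2⟩ := QQ_ne h
        refine ⟨h1.1.2.1.trans h2.1.2.1, ?_⟩
        by_contra h3
        exact h (IH _ (by omega) t a b rfl)
      have hrel : ∀ x' y' : Cfg mate, x'.K = x.K → y'.K = y.K → ∀ j,
          (if x'.f j = false then QQ mate col s t y' (X j x') else 0) =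
            if y'.f j = true then QQ mate col s t (R j y') x' else 0 := by
        intro x' y' hx hy j
        have h1 : (y'.K \ x'.K).card ≤ n := by
          rw [hx, hy, hn]
        rw [← ent1 (t := t) hW hk h1, ← ent2 (t := t) hW hk h1]
        unfold QQ
        rw [hcomm t j]
      have hlab : ∀ a b : Cfg mate, QQ mate col s t b a ≠ 0 → a.f = b.f := by
        intro a b h
        obtain ⟨z, h1, h2⟩ := QQ_ne h
        exact h1.1.1.trans h2.1.1
      -- the circles agree
      have hsame : ∀ j h, Same mate x.K j h ↔ Same mate y.K j h := by
        intro j h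
        rcases Bool.eq_false_or_eq_true (x.f j) with hj | hj
        · have hj' : y.f j = true := by rw [← hfxy]; exact hj
          have h1 := hrel (R j x) y rfl rfl j
          rw [if_pos (R_self j x), if_pos hj', X_R hj] at h1
          have h2 := hlab _ _ (by rw [← h1]; exact hne)
          have h3 : (R j x).f h = true ↔ (R j y).f h = true := by rw [h2]
          rw [R_f_iff, R_f_iff] at h3
          constructor
          · intro h4
            have h5 : y.f h = true := by
              rw [← hfxy, ← h4 _ x.inv, hj]
            by_contra h6
            exact (h3.2 ⟨h5, h6⟩).2 h4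
          · intro h4
            have h5 : x.f h = true := by
              rw [hfxy, ← h4 _ y.inv, hj']
            by_contra h6
            exact (h3.1 ⟨h5, h6⟩).2 h4
        · have hj' : y.f j = false := by rw [← hfxy]; exact hj
          have h1 := hrel x (X j y) rfl rfl j
          rw [if_pos hj, if_pos (X_self j y), R_X hj'] at h1
          have h2 := hlab _ _ (by rw [h1]; exact hne)
          have h3 : (X j x).f h = true ↔ (X j y).f h = true := by rw [h2]
          rw [X_f_iff, X_f_iff] at h3
          constructor
          · intro h4
            rcases h3.1 (Or.inr h4) with h5 | h5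
            · rw [← hfxy, ← h4 _ x.inv, hj] at h5
              exact Bool.noConfusion h5
            · exact h5
          · intro h4
            rcases h3.2 (Or.inr h4) with h5 | h5
            · rw [hfxy, ← h4 _ y.inv, hj'] at h5
              exact Bool.noConfusion h5
            · exact h5
      -- four crossings
      have hcard : (y.K \ x.K).card = 4 := by
        have h1 : wt mate y.K y.f = wt mate x.K x.f + 4 := hwxy
        unfold wt at h1
        rw [← hfxy, ← cn_congr hsame, ← cn_congr hsame] at h1
        have h2 := Finset.card_sdiff_add_card_eq_card hKxy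
        omega
      have hxS : ∀ e ∈ y.K \ x.K, Same mate x.K (e, 0) (e, 2) := by
        intro e he
        obtain ⟨he1, he2⟩ := Finset.mem_sdiff.1 he
        have h1 : Same mate x.K (e, 0) (e, 3) := fun f hf => ((Inv.slots_not_mem hf he2).1).symm
        have h2 : Same mate y.K (e, 3) (e, 2) := fun f hf => (Inv.slots_mem hf he1).2
        exact h1.trans ((hsame _ _).2 h2)
      have hyS : ∀ e ∈ y.K \ x.K, Same mate y.K (e, 0) (e, 2) := fun e he =>
        (hsame _ _).1 (hxS e he)
      have hf2 : ∀ e ∈ y.K \ x.K, x.f (e, 2) = x.f (e, 0) := fun e he =>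
        ((hxS e he) _ x.inv).symm
      by_cases hS1 : ∃ e ∈ y.K \ x.K, x.f (e, 0) = false
      · obtain ⟨e1, he1, he1'⟩ := hS1
        let S1 : Finset E := (y.K \ x.K).filter fun e => x.f (e, 0) = false
        have hmem : ∀ e, e ∈ S1 ↔ (e ∈ y.K ∧ e ∉ x.K) ∧ x.f (e, 0) = false := by
          intro e
          rw [Finset.mem_filter, Finset.mem_sdiff]
        have hsub : S1 ⊆ y.K \ x.K := Finset.filter_subset _ _
        have he1S : e1 ∈ S1 := Finset.mem_filter.2 ⟨he1, he1'⟩
        obtain ⟨t', ht1, ht2⟩ := hSQA E mate col hD hO hJ s x.K S1
          (Or.inl fun e he => ((hmem e).1 he).1.2)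
          ((Finset.card_le_card hsub).trans (le_of_eq hcard))
          (fun e he => hxS e (hsub he))
          (fun h e he => by
            have h1 : S1 = y.K \ x.K := Finset.eq_of_subset_of_card_le hsub (by rw [h, hcard])
            have h2 : symmDiff x.K S1 = y.K := by
              rw [h1]
              ext a
              rw [Finset.mem_symmDiff, Finset.mem_sdiff]
              constructor
              · rintro (⟨h3, -⟩ | ⟨h3, -⟩)
                · exact hKxy h3
                · exact h3.1
              · intro h3
                by_cases h4 : a ∈ x.K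
                · exact Or.inl ⟨h4, fun h5 => h5.2 h4⟩
                · exact Or.inr ⟨⟨h3, h4⟩, h4⟩
            rw [h2]
            exact hyS e (hsub he)) t
        have h1 : QQ mate col s t' y x ≠ 0 := by
          rw [hinv t t' fun e he => ht1 e fun h => he (hsub h)]
          exact hne
        obtain ⟨z, hz1, hz2⟩ := QQ_ne h1
        obtain ⟨⟨a1, a2, a3, a4⟩, a5⟩ := hz1
        obtain ⟨⟨b1, b2, b3, b4⟩, b5⟩ := hz2
        rcases a5 with ⟨a5, a6⟩ | ⟨a5, -⟩
        · refine ht2 (z.K \ x.K) (fun e he => ?_) a3 (tyL_tog (fun e he => ?_) a6)
          · obtain ⟨c1, c2⟩ := Finset.mem_sdiff.1 he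
            exact (hmem e).2 ⟨⟨b2 c1, c2⟩, (a5 e he).1⟩
          · exact (Finset.mem_sdiff.1 he).2
        · have hzf : ∀ e, e ∈ z.K → e ∉ x.K → x.f (e, 0) = true := fun e h2 h3 =>
            (a5 e (Finset.mem_sdiff.2 ⟨h2, h3⟩)).1
          have hS1z : S1 ⊆ y.K \ z.K := by
            intro e he
            obtain ⟨⟨c1, c2⟩, c3⟩ := (hmem e).1 he
            refine Finset.mem_sdiff.2 ⟨c1, fun c4 => ?_⟩
            rw [hzf e c4 c2] at c3
            exact Bool.noConfusion c3
          rcases b5 with ⟨b5, b6⟩ | ⟨b5, -⟩
          · have hSz : y.K \ z.K = S1 := by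
              refine Finset.Subset.antisymm (fun e he => ?_) hS1z
              obtain ⟨c1, c2⟩ := Finset.mem_sdiff.1 he
              refine (hmem e).2 ⟨⟨c1, fun c3 => c2 (a2 c3)⟩, ?_⟩
              rw [a1]
              exact (b5 e he).1
            rw [hSz] at b6
            have hzi : Inv mate z.K x.f := by
              rw [a1]
              exact z.inv
            have hyi : Inv mate y.K x.f := by
              rw [hfxy]
              exact y.inv
            have hval : ∀ e ∈ S1, ∀ b, (fun h => !x.f h) (pt (e, b)) = true := by
              intro e he b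
              have c1 := ((hmem e).1 he).2
              have c2 := hf2 e (hsub he)
              cases b
              · show (!x.f (e, 0)) = true
                rw [c1]
                rfl
              · show (!x.f (e, 2)) = true
                rw [c2, c1]
                rfl
            have hloc : ∀ e ∈ S1, ∀ b h, (Same mate z.K (pt (e, b)) h ↔
                Same mate x.K (pt (e, b)) h) := by
              intro e he b h
              refine same_loc_iff hzi.not x.inv.not (fun g hg => ?_) (hval e he b)
              have c1 : g ∈ z.K := by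
                by_contra c2
                by_cases c3 : g ∈ x.K
                · exact c2 (a2 c3)
                · exact c2 (hg.2 c3)
              rw [hzf g c1 (hg.1 c1)]
              rfl
            have hloc2 : ∀ e ∈ S1, ∀ f ∈ S1, ∀ b h, (Same mate (insert e z.K) (pt (f, b)) h ↔
                Same mate (insert e x.K) (pt (f, b)) h) := by
              intro e he f hf b h
              have he' := ((hmem e).1 he).1
              have c4 : Inv mate (insert e z.K) x.f := inv_between hzi hyi
                (Finset.subset_insert _ _) (Finset.insert_subset he'.1 b2)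
              have c5 : Inv mate (insert e x.K) x.f := inv_between x.inv hyi
                (Finset.subset_insert _ _) (Finset.insert_subset he'.1 hKxy)
              refine same_loc_iff c4.not c5.not (fun g hg => ?_) (hval f hf b)
              rw [Finset.mem_insert, Finset.mem_insert] at hg
              have c1 : g ∈ z.K ∧ g ∉ x.K := by
                by_cases c2 : g = e
                · exact absurd (Or.inl c2) (hg.1 (Or.inl c2))
                · by_cases c3 : g ∈ x.K
                  · exact absurd (Or.inr c3) (hg.1 (Or.inr (a2 c3)))
                  · refine ⟨?_, c3⟩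
                    rcases hg.2 (by rintro (c6 | c6) <;> contradiction) with c6 | c6
                    · exact absurd c6 c2
                    · exact c6
              rw [hzf g c1.1 c1.2]
              rfl
            have h2 : tyL mate col s t' x.K S1 := by
              rcases b6 with b6 | b6
              · exact Or.inl ((TA_congr (fun _ _ => rfl) fun e he f hf b c =>
                  hloc e he b _).1 b6)
              · exact Or.inr ((TC_congr (fun _ _ => rfl) (fun e he f hf b c => hloc e he b _)
                  (fun e he f hf b c => hloc2 e he f hf b _)).1 b6)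
            exact ht2 S1 subset_rfl ⟨e1, he1S⟩ (tyL_tog (fun e he => ((hmem e).1 he).1.2) h2)
          · have h2 := (b5 e1 (hS1z he1S)).1
            rw [← a1, he1'] at h2
            exact Bool.noConfusion h2
      · push Not at hS1
        have hall : ∀ e ∈ y.K \ x.K, x.f (e, 0) = true := by
          intro e he
          rcases Bool.eq_false_or_eq_true (x.f (e, 0)) with h | h
          · exact h
          · exact absurd h (hS1 e he)
        obtain ⟨t', ht1, ht2⟩ := hSQA E mate col hD hO hJ s y.K (y.K \ x.K)
          (Or.inr fun e he => (Finset.mem_sdiff.1 he).1) (le_of_eq hcard) hyS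
          (fun _ e he => by
            have h2 : symmDiff y.K (y.K \ x.K) = x.K := by
              ext a
              rw [Finset.mem_symmDiff, Finset.mem_sdiff]
              constructor
              · rintro (⟨h3, h4⟩ | ⟨h3, h4⟩)
                · by_contra h5
                  exact h4 ⟨h3, h5⟩
                · exact absurd h3.1 h4
              · intro h3
                exact Or.inl ⟨hKxy h3, fun h4 => h4.2 h3⟩
            rw [h2]
            exact hxS e he) t
        have h1 : QQ mate col s t' y x ≠ 0 := by
          rw [hinv t t' ht1]
          exact hne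
        obtain ⟨z, hz1, hz2⟩ := QQ_ne h1
        obtain ⟨⟨a1, a2, a3, a4⟩, a5⟩ := hz1
        obtain ⟨⟨b1, b2, b3, b4⟩, b5⟩ := hz2
        have hsz : y.K \ z.K ⊆ y.K \ x.K := Finset.sdiff_subset_sdiff subset_rfl a2
        rcases b5 with ⟨b5, -⟩ | ⟨b5, b6⟩
        · obtain ⟨e, he⟩ := b3
          have h2 := (b5 e he).1
          rw [← a1, hall e (hsz he)] at h2
          exact Bool.noConfusion h2
        · exact ht2 (y.K \ z.K) hsz b3 (tyH_tog (fun e he => (Finset.mem_sdiff.1 he).1) b6)
  intro t
  ext y x
  exact main _ t x y rfl

end Pool.Agent.Y71.SZ.Sqb
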