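import Pool.Agent.Y465.SZ.Stm

/-!
Project Y465-SZ, job DCJ, first part: toggling, the sign lemma and the application of `S_GAM`
-/

set_option linter.unusedSectionVars false
set_option autoImplicit false

namespace Pool.Agent.Y71.SZ

open Pool.Agent.Y465.SZ

variable {E : Type} [Fintype E] [DecidableEq E] {mate : E × Fin 4 → E × Fin 4}

theorem tog_not_mem {K : Finset E} {e : E} (h : e ∉ K) : tog K e = insert e K := by
  unfold tog
  rw [if_neg h]

theorem tog_mem {K : Finset E} {e : E} (h : e ∈ K) : tog K e = K.erase e := by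
  unfold tog
  rw [if_pos h]

theorem mem_tog_self {K : Finset E} {e : E} : e ∈ tog K e ↔ e ∉ K := by
  by_cases h : e ∈ K
  · rw [tog_mem h]
    simp [h]
  · rw [tog_not_mem h]
    simp [h]

theorem mem_tog_ne {K : Finset E} {e g : E} (hg : g ≠ e) : g ∈ tog K e ↔ g ∈ K := by
  by_cases h : e ∈ K
  · rw [tog_mem h]
    simp [hg]
  · rw [tog_not_mem h]
    simp [hg]

theorem tog_tog (K : Finset E) (e : E) : tog (tog K e) e = K := by
  ext g
  by_cases hg : g = e
  · subst hg
    rw [mem_tog_self, mem_tog_self, not_not]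
  · rw [mem_tog_ne hg, mem_tog_ne hg]

theorem sd (B : Finset E) {f g : E} (h : f ≠ g) :
    symmDiff (tog B f) (tog B g) = {f, g} := by
  ext x
  rw [Finset.mem_symmDiff, Finset.mem_insert, Finset.mem_singleton]
  by_cases hf : x = f
  · subst hf
    rw [mem_tog_self, mem_tog_ne h]
    tauto
  · by_cases hg : x = g
    · subst hg
      rw [mem_tog_self, mem_tog_ne hf]
      tauto
    · rw [mem_tog_ne hf, mem_tog_ne hg]
      tauto

theorem sgl_key : ∀ (cf cg a a' b b' : Bool), cf ≠ cg → a ≠ a' →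
    (if cf then (1 : ℤ) else -1) * (bz true - bz false) * (bz b - bz b') +
      (if cg then (1 : ℤ) else -1) * (bz a - bz a') * (bz true - bz false) = 0 →
    (a = true ↔ b = true) := by decide

/-- the sign lemma -/
theorem sgl (hOSG : S_OSG) {col : E × Fin 4 → Bool} (hD : Dia mate col) (hO : Ori mate)
    (hJ : JOI mate) (B : Finset E) {f g : E} (hfg : f ≠ g) (hc : col (f, 0) ≠ col (g, 0))
    (hf : Same mate B (f, 0) (f, 2)) (hg : Same mate B (g, 0) (g, 2))
    (hn : ¬ Same mate (tog B f) (g, 0) (g, 2)) :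
    Same mate (tog B f) (g, 2) (f, 2) ↔ Same mate (tog B g) (f, 2) (g, 2) := by
  classical
  have hKf : ¬ Same mate (tog B f) (f, 0) (f, 2) := fun h => (hO B f).1 h hf
  have hKg : ¬ Same mate (tog B g) (g, 0) (g, 2) := fun h => (hO B g).1 h hg
  have hE := hOSG E mate col hD.mm hD.cm hD.ca (tog B f) (tog B g)
    (fun h' => decide (Same mate (tog B f) (f, 2) h'))
    (fun h' => decide (Same mate (tog B g) (g, 2) h')) (inv_class _ _) (inv_class _ _)
  rw [sd B hfg, Finset.sum_pair hfg] at hE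
  have e1 : decide (Same mate (tog B f) (f, 2) (f, 2)) = true := decide_eq_true (Same.refl _ _)
  have e2 : decide (Same mate (tog B f) (f, 2) (f, 0)) = false :=
    decide_eq_false fun h => hKf h.symm
  have e3 : decide (Same mate (tog B g) (g, 2) (g, 2)) = true := decide_eq_true (Same.refl _ _)
  have e4 : decide (Same mate (tog B g) (g, 2) (g, 0)) = false :=
    decide_eq_false fun h => hKg h.symm
  rw [e1, e2, e3, e4] at hE
  have hne : decide (Same mate (tog B f) (f, 2) (g, 2)) ≠
      decide (Same mate (tog B f) (f, 2) (g, 0)) := by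
    have h1 := ((hJ (tog B f) f hKf).2 (g, 0) (g, 2)).1 (by rw [tog_tog]; exact hg)
    rcases h1 with h1 | ⟨h1, h2⟩ | ⟨h1, h2⟩
    · exact absurd h1 hn
    · rw [decide_eq_true h2.symm, decide_eq_false fun h3 => hKf (h1.symm.trans h3.symm)]
      exact Bool.noConfusion
    · rw [decide_eq_true h1.symm, decide_eq_false fun h3 => hKf (h2.symm.trans h3.symm)]
      exact Bool.noConfusion
  have h1 := sgl_key _ _ _ _ _ _ hc hne hE
  rw [decide_eq_true_iff, decide_eq_true_iff] at h1
  constructor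
  · intro h2
    exact (h1.1 h2.symm).symm
  · intro h2
    exact (h1.2 h2.symm).symm

theorem same_equiv (K : Finset E) :
    Equivalence (fun p q : E × Bool => Same mate K (pt p) (pt q)) :=
  ⟨fun _ => Same.refl _ _, fun h => h.symm, fun h h' => h.trans h'⟩

/-- application of `S_GAM` to a family of states -/
theorem gen (hOSG : S_OSG) (hG : S_GAM) {col : E × Fin 4 → Bool} (hD : Dia mate col)
    (hO : Ori mate) (hJ : JOI mate) (s : Bool) (t : E → Bool) (e : E) (S : Finset E) (he : e ∉ S)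
    (hS : S.Nonempty) (Z : Finset E → Finset E) (m : Finset E → ℤ) (b : Bool)
    (z1 : ∀ K, K ⊆ insert e S → ∀ g ∈ insert e S, g ∉ K → Z (insert g K) = tog (Z K) g)
    (z2 : ∀ K, K ⊆ insert e S → ∀ g ∈ insert e S, g ∉ K →
      (¬ Same mate (Z K) (g, 0) (g, 2) → m (insert g K) = m K + 2) ∧
      (Same mate (Z K) (g, 0) (g, 2) → m (insert g K) = m K))
    (z3 : ∀ g ∈ insert e S, decide (g ∈ Z ∅) = b)
    (z6 : m (insert e S) = m ∅ + 2) :
    (Xor (TT s (fun e => col (e, 0)) (fun K p q => Same mate (Z K) (pt p) (pt q)) ∅ (insert e S)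
        (ft t e))
      (TT s (fun e => col (e, 0)) (fun K p q => Same mate (Z K) (pt p) (pt q)) ∅ (insert e S) t) ↔
      Xor (Same mate (Z S) (e, 2) (e, 0) ∧
        TT s (fun e => col (e, 0)) (fun K p q => Same mate (Z K) (pt p) (pt q)) ∅ S t)
        (Same mate (Z ∅) (e, 2) (e, 0) ∧
        TT s (fun e => col (e, 0)) (fun K p q => Same mate (Z K) (pt p) (pt q)) {e} S t)) := by
  have hs1 : ∀ g ∈ insert e S, Z {g} = tog (Z ∅) g := by
    intro g hg
    have h1 := z1 ∅ (Finset.empty_subset _) g hg (Finset.notMem_empty _)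
    rwa [insert_empty_eq] at h1
  refine hG E (fun e => col (e, 0)) S e (fun K p q => Same mate (Z K) (pt p) (pt q)) m s t he hS
    (fun K => same_equiv _) ?_ ?_ ?_ ?_ z6
  · intro K hK g hg hgK hn
    have hn' : ¬ Same mate (Z K) (g, 0) (g, 2) := fun h => hn h.symm
    refine ⟨(z2 K hK g hg hgK).1 hn', fun p q => ?_⟩
    have h1 := (hJ (Z K) g hn').2 (pt p) (pt q)
    show Same mate (Z (insert g K)) (pt p) (pt q) ↔ _
    rw [z1 K hK g hg hgK, h1]
    exact or_congr Iff.rfl Or.comm
  · intro K hK g hg hgK hn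
    have hn' : Same mate (Z K) (g, 0) (g, 2) := hn.symm
    have h2 : ¬ Same mate (tog (Z K) g) (g, 0) (g, 2) := fun h => (hO (Z K) g).1 h hn'
    refine ⟨(z2 K hK g hg hgK).2 hn', ?_, fun p q => ?_⟩
    · show ¬ Same mate (Z (insert g K)) (g, 2) (g, 0)
      rw [z1 K hK g hg hgK]
      exact fun h => h2 h.symm
    · have h1 := (hJ (tog (Z K) g) g h2).2 (pt p) (pt q)
      rw [tog_tog] at h1
      show Same mate (Z K) (pt p) (pt q) ↔ Same mate (Z (insert g K)) (pt p) (pt q) ∨
        (Same mate (Z (insert g K)) (pt p) (g, 2) ∧ Same mate (Z (insert g K)) (pt q) (g, 0)) ∨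
        (Same mate (Z (insert g K)) (pt p) (g, 0) ∧ Same mate (Z (insert g K)) (pt q) (g, 2))
      rw [z1 K hK g hg hgK, h1]
      exact or_congr Iff.rfl Or.comm
  · intro f hf g hg hfg h1 h2 h3
    have h4 : ¬ Same mate (tog (Z ∅) f) (g, 0) (g, 2) := by
      intro h
      apply h3
      show Same mate (Z {f}) (g, 2) (g, 0)
      rw [hs1 f hf]
      exact h.symm
    have h5 := hD.pl (Z ∅) f g hfg (Same.symm h1) (Same.symm h2) h4
    rw [z3 f hf, z3 g hg] at h5
    intro h6
    apply h5
    show (col (f, 0) ^^ b) = (col (g, 0) ^^ b)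
    have h7 : col (f, 0) = col (g, 0) := h6
    rw [h7]
  · intro f hf g hg hc h1 h2 h3
    have hfg : f ≠ g := by
      rintro rfl
      exact hc rfl
    have h4 : ¬ Same mate (tog (Z ∅) f) (g, 0) (g, 2) := by
      intro h
      apply h3
      show Same mate (Z {f}) (g, 2) (g, 0)
      rw [hs1 f hf]
      exact h.symm
    show Same mate (Z {f}) (g, 2) (f, 2) ↔ Same mate (Z {g}) (f, 2) (g, 2)
    rw [hs1 f hf, hs1 g hg]
    exact sgl hOSG hD hO hJ (Z ∅) hfg hc (Same.symm h1) (Same.symm h2) h4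

end Pool.Agent.Y71.SZ
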